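import Pool.Agent.Run7.h59.KK.Mean

/-!
The asymptotics: upper bound for the noise and for the spectral threshold.
-/

set_option autoImplicit false

namespace Pool.Agent.Run7.h59.KK

open MeasureTheory ProbabilityTheory Finset Filter Topology

/-- the explicit upper bound for `n ^ (-h/2)` times the mean -/
noncomputable def Rn (h ℓ : ℕ) (a b τ : ℝ) (n : ℕ) : ℝ :=
  Real.exp (ℓ / Real.log n) * (τ * (a * (1 + (ℓ + 4 * h * Real.log n ^ 2) / √(n : ℝ)) ^ h) +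
    τ⁻¹ * (b + 2 * Real.log n ^ 2 / √(n : ℝ)))

lemma tendsto_log : Tendsto (fun n : ℕ => Real.log n) atTop atTop :=
  Real.tendsto_log_atTop.comp tendsto_natCast_atTop_atTop

lemma tendsto_sqrt : Tendsto (fun n : ℕ => √(n : ℝ)) atTop atTop :=
  Real.tendsto_sqrt_atTop.comp tendsto_natCast_atTop_atTop

lemma tendsto_logsq : Tendsto (fun n : ℕ => Real.log n ^ 2 / √(n : ℝ)) atTop (𝓝 0) := by
  have h := (isLittleO_log_rpow_rpow_atTop (s := 1 / 2) 2 (by norm_num)).tendsto_div_nhds_zero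
  have h2 := h.comp (tendsto_natCast_atTop_atTop (R := ℝ))
  refine h2.congr fun n => ?_
  simp only [Function.comp]
  rw [← Real.sqrt_eq_rpow]
  norm_num

lemma tendsto_Rn (h ℓ : ℕ) (a b τ : ℝ) :
    Tendsto (Rn h ℓ a b τ) atTop (𝓝 (τ * a + τ⁻¹ * b)) := by
  have h1 : Tendsto (fun n : ℕ => Real.exp (ℓ / Real.log n)) atTop (𝓝 1) := by
    rw [← Real.exp_zero]
    apply (Real.continuous_exp.tendsto 0).comp
    exact tendsto_const_nhds.div_atTop tendsto_log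
  have h2 : Tendsto (fun n : ℕ => (ℓ + 4 * h * Real.log n ^ 2) / √(n : ℝ)) atTop (𝓝 0) := by
    have e1 : Tendsto (fun n : ℕ => (ℓ : ℝ) / √(n : ℝ)) atTop (𝓝 0) :=
      tendsto_const_nhds.div_atTop tendsto_sqrt
    have e2 := tendsto_logsq.const_mul (4 * (h : ℝ))
    have e3 := e1.add e2
    rw [mul_zero, add_zero] at e3
    refine e3.congr fun n => ?_
    ring
  have h3 : Tendsto (fun n : ℕ => 2 * Real.log n ^ 2 / √(n : ℝ)) atTop (𝓝 0) := by
    have e2 := tendsto_logsq.const_mul 2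
    rw [mul_zero] at e2
    refine e2.congr fun n => ?_
    ring
  have h4 := ((h2.const_add 1).pow h).const_mul a
  have h5 := (h4.const_mul τ).add ((h3.const_add b).const_mul τ⁻¹)
  have h6 := h1.mul h5
  simp only [add_zero, one_pow, mul_one, one_mul] at h6
  exact h6

/-- the upper bound for one `n` -/
lemma El_le_Rn (h ℓ n : ℕ) (hh : 1 ≤ h) (hn : ℓ ≤ n) (hn2 : 3 ≤ n) {τ : ℝ} (hτ : 0 < τ) :
    El (2 * h) ℓ n 0 ≤ (n : ℝ) ^ ((h : ℝ) / 2) *
      Rn h ℓ ((ℓ.choose h : ℝ) / (h.factorial : ℝ)) ((ℓ : ℝ) / h) τ n := by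
  have hn0 : (0 : ℝ) < n := by
    have : 0 < n := by omega
    exact_mod_cast this
  have hn3 : (3 : ℝ) ≤ n := by exact_mod_cast hn2
  obtain ⟨L, hL⟩ : ∃ L, L = Real.log n := ⟨_, rfl⟩
  have hL1 : 1 ≤ L := by
    rw [hL, Real.le_log_iff_exp_le hn0]
    have := Real.exp_one_lt_d9
    linarith
  obtain ⟨j, hj1, hj2⟩ := exists_nat_pow_near (x := L ^ 2) (y := (2 : ℝ)) (by nlinarith)
    (by norm_num)
  obtain ⟨K, hK⟩ : ∃ K : ℕ, K = 2 ^ (j + 1) := ⟨_, rfl⟩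
  have hK1 : L ^ 2 ≤ (K : ℝ) := by
    rw [hK]; push_cast; exact hj2.le
  have hK2 : (K : ℝ) ≤ 2 * L ^ 2 := by
    rw [hK]; push_cast; rw [pow_succ]; linarith
  obtain ⟨s, hs⟩ : ∃ s, s = √(n : ℝ) := ⟨_, rfl⟩
  have hs0 : 0 < s := by rw [hs]; positivity
  have hss : s * s = n := by rw [hs]; exact Real.mul_self_sqrt hn0.le
  have hs1 : 1 ≤ s := by
    rw [hs]
    exact Real.one_le_sqrt.2 (by linarith)
  obtain ⟨N, hN⟩ : ∃ N : ℝ, N = (n : ℝ) ^ ((h : ℝ) / 2) := ⟨_, rfl⟩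
  have hNs : N = s ^ h := by
    rw [hN, hs, Real.sqrt_eq_rpow, ← Real.rpow_natCast, ← Real.rpow_mul hn0.le]
    congr 1
    ring
  have hN0 : 0 < N := by rw [hNs]; positivity
  have ht : 0 < τ / N := by positivity
  have h1 := El_pow_le h ℓ n hh hn ht hs1 j
  rw [← hK] at h1
  -- the growth rate
  have hh0 : (0 : ℝ) < h := by exact_mod_cast hh
  have hfac : (0 : ℝ) < (h.factorial : ℝ) := by positivity
  obtain ⟨X, hX⟩ : ∃ X, X = τ * (((ℓ.choose h : ℝ) / (h.factorial : ℝ)) *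
    (1 + (ℓ + 4 * h * L ^ 2) / s) ^ h) + τ⁻¹ * ((ℓ : ℝ) / h + 2 * L ^ 2 / s) := ⟨_, rfl⟩
  have hX0 : 0 ≤ X := by rw [hX]; positivity
  have h2 : Lam n ℓ h (τ / N) s (K : ℝ) ≤ N * X := by
    unfold Lam
    rw [hX, mul_add N]
    apply add_le_add
    · have e1 : (n : ℝ) + s * (ℓ + 2 * h * K) ≤ s * s * (1 + (ℓ + 4 * h * L ^ 2) / s) := by
        have : s * s * (1 + (ℓ + 4 * h * L ^ 2) / s) = s * s + s * (ℓ + 4 * h * L ^ 2) := by
          field_simp
        rw [this, hss]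
        have h3 : 2 * (h : ℝ) * K ≤ 4 * h * L ^ 2 := by nlinarith
        nlinarith
      have e2 : ((n : ℝ) + s * (ℓ + 2 * h * K)) ^ h ≤
          (s * s * (1 + (ℓ + 4 * h * L ^ 2) / s)) ^ h :=
        pow_le_pow_left₀ (by positivity) e1 h
      have e3 : (s * s * (1 + (ℓ + 4 * h * L ^ 2) / s)) ^ h =
          N * N * (1 + (ℓ + 4 * h * L ^ 2) / s) ^ h := by
        rw [mul_pow, mul_pow, ← hNs]
      rw [e3] at e2
      calc τ / N * ((ℓ.choose h : ℝ) * (((n : ℝ) + s * (ℓ + 2 * h * K)) ^ h / (h.factorial : ℝ))) ≤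
            τ / N * ((ℓ.choose h : ℝ) * ((N * N * (1 + (ℓ + 4 * h * L ^ 2) / s) ^ h) /
              (h.factorial : ℝ))) := by
            apply mul_le_mul_of_nonneg_left _ ht.le
            apply mul_le_mul_of_nonneg_left _ (Nat.cast_nonneg _)
            exact div_le_div_of_nonneg_right e2 hfac.le
        _ = _ := by
            field_simp
    · have e1 : (K : ℝ) / s ≤ 2 * L ^ 2 / s := div_le_div_of_nonneg_right hK2 hs0.le
      have e2 : (τ / N)⁻¹ = N * τ⁻¹ := by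
        rw [inv_div]
        rfl
      rw [e2, mul_assoc]
      apply mul_le_mul_of_nonneg_left _ hN0.le
      apply mul_le_mul_of_nonneg_left _ (by positivity)
      linarith
  have hLam0 : 0 ≤ Lam n ℓ h (τ / N) s (K : ℝ) := by
    unfold Lam
    positivity
  have h3 : (El (2 * h) ℓ n 0) ^ K ≤ (Real.exp (ℓ / L) * (N * X)) ^ K := by
    refine h1.trans ?_
    rw [mul_pow]
    apply mul_le_mul _ (pow_le_pow_left₀ hLam0 h2 K) (by positivity) (by positivity)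
    rw [← Real.exp_nat_mul]
    have e1 : (n.choose ℓ : ℝ) ≤ (n : ℝ) ^ ℓ := by
      exact_mod_cast Nat.choose_le_pow n ℓ
    refine e1.trans ?_
    have e2 : (n : ℝ) ^ ℓ = Real.exp (ℓ * L) := by
      rw [mul_comm, Real.exp_mul, hL, Real.exp_log hn0, Real.rpow_natCast]
    rw [e2, Real.exp_le_exp]
    have e3 : (K : ℝ) * (ℓ / L) = ℓ * (K / L) := by ring
    rw [e3]
    apply mul_le_mul_of_nonneg_left _ (Nat.cast_nonneg _)
    rw [le_div_iff₀ (by linarith)]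
    nlinarith
  have hKne : K ≠ 0 := by rw [hK]; positivity
  have h4 : El (2 * h) ℓ n 0 ≤ Real.exp (ℓ / L) * (N * X) :=
    le_of_pow_le_pow_left₀ hKne (by positivity) h3
  refine h4.trans (le_of_eq ?_)
  unfold Rn
  rw [← hL, ← hs, ← hN, hX]
  ring

/-- the noise level -/
noncomputable def lev (h ℓ : ℕ) : ℝ := 2 * √((ℓ : ℝ) / h * ((ℓ.choose h : ℝ) / (h.factorial : ℝ)))

/-- the upper bound for the noise -/
theorem noise_le (h ℓ : ℕ) (hh : 1 ≤ h) (hl : h ≤ ℓ) (c : ℝ) (hc : lev h ℓ < c) :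
    ∀ᶠ n : ℕ in atTop, El (2 * h) ℓ n 0 ≤ c * (n : ℝ) ^ ((h : ℝ) / 2) := by
  obtain ⟨a, ha⟩ : ∃ a, a = (ℓ.choose h : ℝ) / (h.factorial : ℝ) := ⟨_, rfl⟩
  obtain ⟨b, hb⟩ : ∃ b, b = (ℓ : ℝ) / h := ⟨_, rfl⟩
  have hh0 : (0 : ℝ) < h := by exact_mod_cast hh
  have hl0 : (0 : ℝ) < ℓ := by
    have : 0 < ℓ := by omega
    exact_mod_cast this
  have ha0 : 0 < a := by
    rw [ha]
    have : (0 : ℝ) < ℓ.choose h := by exact_mod_cast Nat.choose_pos hl
    positivity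
  have hb0 : 0 < b := by rw [hb]; positivity
  obtain ⟨τ, hτ⟩ : ∃ τ, τ = √b / √a := ⟨_, rfl⟩
  have hτ0 : 0 < τ := by rw [hτ]; positivity
  have hlim : τ * a + τ⁻¹ * b = lev h ℓ := by
    have e1 := Real.mul_self_sqrt ha0.le
    have e2 := Real.mul_self_sqrt hb0.le
    have e3 : √a ≠ 0 := by positivity
    have e4 : √b ≠ 0 := by positivity
    unfold lev
    rw [← ha, ← hb, Real.sqrt_mul hb0.le, hτ, inv_div]
    have e5 : √b / √a * a = √b * √a := by
      rw [div_mul_eq_mul_div, div_eq_iff e3, mul_assoc, e1]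
    have e6 : √a / √b * b = √b * √a := by
      rw [div_mul_eq_mul_div, div_eq_iff e4, mul_right_comm, e2, mul_comm]
    rw [e5, e6]
    ring
  have h1 := (tendsto_Rn h ℓ a b τ).eventually_lt_const (u := c) (by rw [hlim]; exact hc)
  filter_upwards [h1, eventually_ge_atTop (max 3 ℓ)] with n hn1 hn2
  have h2 := El_le_Rn h ℓ n hh ((le_max_right _ _).trans hn2) ((le_max_left _ _).trans hn2) hτ0
  rw [← ha, ← hb] at h2
  refine h2.trans ?_
  rw [mul_comm]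
  exact mul_le_mul_of_nonneg_right hn1.le (by positivity)

/-- the upper bound for the threshold -/
theorem threshold (h ℓ : ℕ) (hh : 1 ≤ h) (hl : h ≤ ℓ) (μ : ℝ)
    (hμ : lev h ℓ < μ * ((ℓ.choose h : ℝ) / (h.factorial : ℝ))) :
    ∃ ε : ℝ, 0 < ε ∧ ∀ᶠ n : ℕ in atTop,
      1 + ε ≤ El (2 * h) ℓ n (μ * (n : ℝ) ^ (-((h : ℝ) / 2))) / El (2 * h) ℓ n 0 := by
  obtain ⟨a, ha⟩ : ∃ a, a = (ℓ.choose h : ℝ) / (h.factorial : ℝ) := ⟨_, rfl⟩
  rw [← ha] at hμ
  have hlev0 : 0 ≤ lev h ℓ := by unfold lev; positivity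
  have ha0 : 0 < a := by
    rw [ha]
    have : (0 : ℝ) < ℓ.choose h := by exact_mod_cast Nat.choose_pos hl
    positivity
  have hμ0 : 0 < μ := by
    by_contra hc
    have : μ * a ≤ 0 := mul_nonpos_of_nonpos_of_nonneg (not_lt.1 hc) ha0.le
    linarith
  obtain ⟨c, hc⟩ : ∃ c, c = (lev h ℓ + μ * a) / 2 := ⟨_, rfl⟩
  have hc1 : lev h ℓ < c := by rw [hc]; linarith
  have hc2 : c < μ * a := by rw [hc]; linarith
  have hc0 : 0 < c := lt_of_le_of_lt hlev0 hc1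
  have hratio : 1 < μ * a / c := by rw [one_lt_div hc0]; exact hc2
  refine ⟨(μ * a / c - 1) / 2, by linarith, ?_⟩
  have hlim : Tendsto (fun n : ℕ => μ * a / c * (1 - ((ℓ : ℝ) + h) / n) ^ h) atTop
      (𝓝 (μ * a / c)) := by
    have e1 : Tendsto (fun n : ℕ => ((ℓ : ℝ) + h) / n) atTop (𝓝 0) :=
      tendsto_const_nhds.div_atTop tendsto_natCast_atTop_atTop
    have e2 := (((e1.const_sub 1).pow h).const_mul (μ * a / c))
    simpa using e2
  have h1 := hlim.eventually_const_lt (u := 1 + (μ * a / c - 1) / 2) (by linarith)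
  filter_upwards [h1, noise_le h ℓ hh hl c hc1, eventually_ge_atTop (ℓ + h + 1)] with n hn1 hn2 hn3
  have hn0 : (0 : ℝ) < n := by
    have : 0 < n := by omega
    exact_mod_cast this
  have hpos := El_pos h ℓ n hh hl (by omega)
  obtain ⟨N, hN⟩ : ∃ N : ℝ, N = (n : ℝ) ^ ((h : ℝ) / 2) := ⟨_, rfl⟩
  have hN0 : 0 < N := by rw [hN]; positivity
  have hNN : N * N = (n : ℝ) ^ h := by
    rw [hN, ← Real.rpow_add hn0, ← Real.rpow_natCast]
    congr 1
    ring
  rw [Real.rpow_neg hn0.le, ← hN]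
  rw [← hN] at hn2
  have h3 := El_ge h ℓ n (by omega) (lam := μ * N⁻¹) (by positivity)
  rw [le_div_iff₀ hpos]
  refine le_trans ?_ h3
  have h4 : ((n : ℝ) - (ℓ + h)) ^ h ≤ (h.factorial : ℝ) * ((n - ℓ).choose h : ℝ) := by
    have e1 := Nat.pow_le_choose (α := ℝ) h (n - ℓ)
    rw [div_le_iff₀ (by positivity)] at e1
    have e2 : ((n : ℝ) - (ℓ + h)) ^ h ≤ (((n - ℓ + 1 - h : ℕ) : ℝ)) ^ h := by
      apply pow_le_pow_left₀
      · have : (ℓ : ℝ) + h ≤ n := by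
          have : ℓ + h ≤ n := by omega
          exact_mod_cast this
        linarith
      · have : n ≤ (n - ℓ + 1 - h) + (ℓ + h) := by omega
        have h5 : (n : ℝ) ≤ ((n - ℓ + 1 - h : ℕ) : ℝ) + ((ℓ : ℝ) + h) := by exact_mod_cast this
        linarith
    refine e2.trans ?_
    push_cast at e1 ⊢
    rw [mul_comm]
    exact e1
  have hfac : (0 : ℝ) < (h.factorial : ℝ) := by positivity
  have h5 : (1 - ((ℓ : ℝ) + h) / n) ^ h * (N * N) ≤ (h.factorial : ℝ) * ((n - ℓ).choose h : ℝ) := by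
    rw [hNN, ← mul_pow]
    have : (1 - ((ℓ : ℝ) + h) / n) * n = (n : ℝ) - (ℓ + h) := by
      field_simp
    rw [this]
    exact h4
  have hC : (ℓ.choose h : ℝ) = a * (h.factorial : ℝ) := by
    rw [ha]; field_simp
  calc (1 + (μ * a / c - 1) / 2) * El (2 * h) ℓ n 0 ≤
        (μ * a / c * (1 - ((ℓ : ℝ) + h) / n) ^ h) * (c * N) := by
        apply mul_le_mul hn1.le hn2 hpos.le
        exact le_trans (by linarith) hn1.le
    _ = μ * a * N⁻¹ * ((1 - ((ℓ : ℝ) + h) / n) ^ h * (N * N)) := by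
        field_simp
    _ ≤ μ * a * N⁻¹ * ((h.factorial : ℝ) * ((n - ℓ).choose h : ℝ)) := by
        apply mul_le_mul_of_nonneg_left h5 (by positivity)
    _ = _ := by
        rw [hC]; ring

end Pool.Agent.Run7.h59.KK
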