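import Mathlib

/-!
Counting lemmas for the Kikuchi graph.
-/

set_option autoImplicit false

namespace Pool.Agent.Run7.h59.KK

open Finset

lemma pow_bin (a b : ℝ) (ha : 0 ≤ a) (hb : 0 ≤ b) (n : ℕ) :
    b ^ (n + 1) + (n + 1) * a * b ^ n ≤ (a + b) ^ (n + 1) := by
  induction n with
  | zero => simp; linarith
  | succ n ih =>
    have h1 : (a + b) ^ (n + 1 + 1) = (a + b) * (a + b) ^ (n + 1) := by ring
    rw [h1]
    have h2 : (a + b) * (b ^ (n + 1) + (n + 1) * a * b ^ n) ≤ (a + b) * (a + b) ^ (n + 1) :=
      mul_le_mul_of_nonneg_left ih (by positivity)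
    refine le_trans ?_ h2
    have h3 : 0 ≤ ((n : ℝ) + 1) * a ^ 2 * b ^ n := by positivity
    push_cast
    have h4 : (a + b) * (b ^ (n + 1) + ((n : ℝ) + 1) * a * b ^ n) =
      b ^ (n + 1 + 1) + ((n : ℝ) + 1 + 1) * a * b ^ (n + 1) + ((n : ℝ) + 1) * a ^ 2 * b ^ n := by ring
    rw [h4]
    linarith

lemma esymm_le {α : Type*} [DecidableEq α] (s : Finset α) (w : α → ℝ) (hw : ∀ x, 0 ≤ w x) :
    ∀ h : ℕ, ∑ A ∈ s.powersetCard h, ∏ x ∈ A, w x ≤ (∑ x ∈ s, w x) ^ h / (h.factorial : ℝ) := by
  induction s using Finset.induction_on with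
  | empty =>
    intro h
    cases h with
    | zero => simp
    | succ h =>
      rw [Finset.powersetCard_eq_empty.2 (by simp)]
      simp
  | insert a s ha ih =>
    intro h
    cases h with
    | zero => simp
    | succ h =>
      rw [Finset.powersetCard_succ_insert ha, Finset.sum_union, Finset.sum_image,
        Finset.sum_insert ha]
      · have h1 := ih (h + 1)
        have h2 : ∑ A ∈ s.powersetCard h, ∏ x ∈ insert a A, w x =
            w a * ∑ A ∈ s.powersetCard h, ∏ x ∈ A, w x := by
          rw [Finset.mul_sum]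
          refine Finset.sum_congr rfl fun A hA => ?_
          rw [Finset.prod_insert]
          intro h3
          exact ha ((Finset.mem_powersetCard.1 hA).1 h3)
        rw [h2]
        have h3 := mul_le_mul_of_nonneg_left (ih h) (hw a)
        have hS : 0 ≤ ∑ x ∈ s, w x := Finset.sum_nonneg fun x _ => hw x
        obtain ⟨T, hT⟩ : ∃ T, T = ∑ x ∈ s, w x := ⟨_, rfl⟩
        rw [← hT] at h1 h3 hS ⊢
        have h4 := pow_bin (w a) T (hw a) hS h
        have h5 : (0 : ℝ) < (h + 1).factorial := by positivity
        have h6 : ((h + 1).factorial : ℝ) = (h + 1) * h.factorial := by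
          rw [Nat.factorial_succ]; push_cast; ring
        have h7 : (0 : ℝ) < h.factorial := by positivity
        calc _ ≤ T ^ (h + 1) / ((h + 1).factorial : ℝ) + w a * (T ^ h / (h.factorial : ℝ)) := by
              exact add_le_add h1 h3
          _ = (T ^ (h + 1) + (h + 1) * w a * T ^ h) / ((h + 1).factorial : ℝ) := by
              rw [h6]
              field_simp
          _ ≤ _ := by
              exact div_le_div_of_nonneg_right h4 h5.le
      · intro A hA B hB hAB
        have hA' := (Finset.mem_powersetCard.1 (Finset.mem_coe.1 hA)).1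
        have hB' := (Finset.mem_powersetCard.1 (Finset.mem_coe.1 hB)).1
        have h1 : (insert a A).erase a = (insert a B).erase a := by rw [hAB]
        rwa [Finset.erase_insert (fun h => ha (hA' h)), Finset.erase_insert (fun h => ha (hB' h))]
          at h1
      · rw [Finset.disjoint_left]
        intro A hA hA2
        obtain ⟨B, _, hB⟩ := Finset.mem_image.1 hA2
        exact ha ((Finset.mem_powersetCard.1 hA).1 (by rw [← hB]; exact Finset.mem_insert_self _ _))

variable {n : ℕ}

/-- the labels of the edges at the vertex `I` -/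
def adj (h : ℕ) (I : Finset (Fin n)) : Finset (Finset (Fin n)) :=
  Finset.univ.filter fun S => S.card = 2 * h ∧ (symmDiff I S).card = I.card

lemma mem_adj {h : ℕ} {I S : Finset (Fin n)} :
    S ∈ adj h I ↔ S.card = 2 * h ∧ (symmDiff I S).card = I.card := by
  unfold adj
  simp

lemma card_symm (I S : Finset (Fin n)) : (symmDiff I S).card = (I \ S).card + (S \ I).card := by
  rw [symmDiff_def, Finset.sup_eq_union]
  apply Finset.card_union_of_disjoint
  rw [Finset.disjoint_left]
  intro x hx hy
  simp only [Finset.mem_sdiff] at hx hy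
  exact hx.2 hy.1

lemma adj_card {h : ℕ} {I S : Finset (Fin n)} (hS : S ∈ adj h I) :
    (S ∩ I).card = h ∧ (S \ I).card = h := by
  obtain ⟨h1, h2⟩ := mem_adj.1 hS
  rw [card_symm] at h2
  have h3 := Finset.card_inter_add_card_sdiff S I
  have h4 := Finset.card_inter_add_card_sdiff I S
  rw [Finset.inter_comm I S] at h4
  omega

lemma sum_adj_le (h : ℕ) (I : Finset (Fin n)) (f : Finset (Fin n) → ℝ) (hf : ∀ A, 0 ≤ f A) :
    ∑ S ∈ adj h I, f (S \ I) ≤ (I.card.choose h : ℝ) * ∑ A ∈ Iᶜ.powersetCard h, f A := by
  have h1 : ∑ S ∈ adj h I, f (S \ I) =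
      ∑ y ∈ (adj h I).image (fun S => (S ∩ I, S \ I)), f y.2 := by
    rw [Finset.sum_image]
    intro S _ T _ hST
    simp only [Prod.mk.injEq] at hST
    rw [← Finset.sdiff_union_inter S I, ← Finset.sdiff_union_inter T I, hST.1, hST.2]
  rw [h1]
  have h2 : (I.card.choose h : ℝ) * ∑ A ∈ Iᶜ.powersetCard h, f A =
      ∑ y ∈ (I.powersetCard h) ×ˢ (Iᶜ.powersetCard h), f y.2 := by
    rw [Finset.sum_product]
    simp only [Finset.sum_const, Finset.card_powersetCard, nsmul_eq_mul]
  rw [h2]
  apply Finset.sum_le_sum_of_subset_of_nonneg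
  · intro y hy
    obtain ⟨S, hS, rfl⟩ := Finset.mem_image.1 hy
    have := adj_card hS
    rw [Finset.mem_product, Finset.mem_powersetCard, Finset.mem_powersetCard]
    refine ⟨⟨Finset.inter_subset_right, this.1⟩, ?_, this.2⟩
    intro x hx
    rw [Finset.mem_sdiff] at hx
    exact Finset.mem_compl.2 hx.2
  · intro y _ _
    exact hf _

/-- the number of neighbours -/
lemma card_adj_ge (h : ℕ) (I : Finset (Fin n)) :
    I.card.choose h * (n - I.card).choose h ≤ (adj h I).card := by
  have h1 : ((I.powersetCard h) ×ˢ (Iᶜ.powersetCard h)).card ≤ (adj h I).card := by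
    apply Finset.card_le_card_of_injOn (fun y => y.1 ∪ y.2)
    · intro y hy
      rw [Finset.mem_coe, Finset.mem_product, Finset.mem_powersetCard,
        Finset.mem_powersetCard] at hy
      obtain ⟨⟨a1, a2⟩, b1, b2⟩ := hy
      have hd : Disjoint y.1 y.2 := by
        rw [Finset.disjoint_left]
        intro x hx hx2
        exact (Finset.mem_compl.1 (b1 hx2)) (a1 hx)
      rw [Finset.mem_coe, mem_adj]
      constructor
      · rw [Finset.card_union_of_disjoint hd, a2, b2]; ring
      · rw [card_symm]
        have e1 : I \ (y.1 ∪ y.2) = I \ y.1 := by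
          ext x
          simp only [Finset.mem_sdiff, Finset.mem_union, not_or]
          constructor
          · exact fun h => ⟨h.1, h.2.1⟩
          · exact fun h => ⟨h.1, h.2, fun h2 => (Finset.mem_compl.1 (b1 h2)) h.1⟩
        have e2 : (y.1 ∪ y.2) \ I = y.2 := by
          ext x
          simp only [Finset.mem_sdiff, Finset.mem_union]
          constructor
          · rintro ⟨h1 | h1, h2⟩
            · exact absurd (a1 h1) h2
            · exact h1
          · exact fun h => ⟨Or.inr h, Finset.mem_compl.1 (b1 h)⟩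
        rw [e1, e2, Finset.card_sdiff_of_subset a1, a2, b2]
        have := Finset.card_le_card a1
        omega
    · intro y hy z hz hyz
      rw [Finset.mem_coe, Finset.mem_product, Finset.mem_powersetCard,
        Finset.mem_powersetCard] at hy hz
      simp only at hyz
      have key : ∀ u : Finset (Fin n) × Finset (Fin n), u.1 ⊆ I → u.2 ⊆ Iᶜ →
          (u.1 ∪ u.2) ∩ I = u.1 ∧ (u.1 ∪ u.2) \ I = u.2 := by
        intro u h1 h2
        constructor
        · ext x
          simp only [Finset.mem_inter, Finset.mem_union]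
          constructor
          · rintro ⟨h3 | h3, h4⟩
            · exact h3
            · exact absurd h4 (Finset.mem_compl.1 (h2 h3))
          · exact fun h => ⟨Or.inl h, h1 h⟩
        · ext x
          simp only [Finset.mem_sdiff, Finset.mem_union]
          constructor
          · rintro ⟨h3 | h3, h4⟩
            · exact absurd (h1 h3) h4
            · exact h3
          · exact fun h => ⟨Or.inr h, Finset.mem_compl.1 (h2 h)⟩
      have k1 := key y hy.1.1 hy.2.1
      have k2 := key z hz.1.1 hz.2.1
      rw [hyz] at k1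
      exact Prod.ext (k1.1.symm.trans k2.1) (k1.2.symm.trans k2.2)
  rw [Finset.card_product, Finset.card_powersetCard, Finset.card_powersetCard,
    Finset.card_compl, Fintype.card_fin] at h1
  exact h1

end Pool.Agent.Run7.h59.KK
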