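import Pool.Agent.Helper649.ZonoA

/-!
Products of Hermite polynomials under the standard Gaussian measure.
-/

set_option autoImplicit false

namespace Pool.Agent.Run7.h59.KK

open MeasureTheory ProbabilityTheory Pool.Agent.Helper649.Zono

variable {κ : Type*} [Fintype κ] [DecidableEq κ]

lemma he_zero (x : ℝ) : He 0 x = 1 := by
  unfold He HP
  simp

lemma he_rec (k : ℕ) (x : ℝ) : x * He k x = He (k + 1) x + k * He (k - 1) x := by
  have h : He (k + 1) x = x * He k x - (Polynomial.derivative (HP k)).eval x := by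
    unfold He
    rw [HP_succ]
    simp
  rw [h]
  cases k with
  | zero => simp [HP]
  | succ k =>
    rw [HP_deriv]
    simp only [Polynomial.eval_mul, Polynomial.eval_C, Nat.add_sub_cancel]
    unfold He
    push_cast
    ring

lemma he_int (k : ℕ) : Integrable (fun x => He k x) (gaussianReal 0 1) :=
  poly_integrable (HP k) 1

lemma he_integral (k : ℕ) : ∫ x, He (k + 1) x ∂(gaussianReal 0 1) = 0 := by
  have h : ∀ x : ℝ, He (k + 1) x = x * (HP k).eval x - (Polynomial.derivative (HP k)).eval x := by
    intro x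
    unfold He
    rw [HP_succ]
    simp
  simp only [h]
  rw [integral_sub, stein, sub_self]
  · have e : ∀ x : ℝ, x * (HP k).eval x = (Polynomial.X * HP k).eval x := by
      intro x; simp
    simp only [e]
    exact poly_integrable _ 1
  · exact poly_integrable _ 1

/-- the product of Hermite polynomials -/
noncomputable def Hm (O : κ → ℕ) (Z : κ → ℝ) : ℝ := ∏ S, He (O S) (Z S)

/-- add one copy of `S` -/
def up (O : κ → ℕ) (S : κ) : κ → ℕ := Function.update O S (O S + 1)

/-- remove one copy of `S` -/
def dn (O : κ → ℕ) (S : κ) : κ → ℕ := Function.update O S (O S - 1)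

/-- the law of the noise -/
noncomputable abbrev gam (κ : Type*) [Fintype κ] : Measure (κ → ℝ) :=
  Measure.pi fun _ : κ => gaussianReal 0 1

lemma hm_upd (O : κ → ℕ) (S : κ) (a : ℕ) (Z : κ → ℝ) :
    Hm (Function.update O S a) Z = He a (Z S) * ∏ T ∈ Finset.univ.erase S, He (O T) (Z T) := by
  unfold Hm
  rw [← Finset.mul_prod_erase Finset.univ _ (Finset.mem_univ S)]
  congr 1
  · simp
  · refine Finset.prod_congr rfl fun T hT => ?_
    rw [Function.update_of_ne (Finset.ne_of_mem_erase hT)]

lemma hm_rec (O : κ → ℕ) (S : κ) (Z : κ → ℝ) :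
    Z S * Hm O Z = Hm (up O S) Z + O S * Hm (dn O S) Z := by
  have h : Hm O Z = He (O S) (Z S) * ∏ T ∈ Finset.univ.erase S, He (O T) (Z T) := by
    have := hm_upd O S (O S) Z
    rwa [Function.update_eq_self] at this
  unfold up dn
  rw [h, hm_upd, hm_upd, ← mul_assoc, he_rec]
  ring

lemma hm_int (O : κ → ℕ) : Integrable (Hm O) (gam κ) :=
  Integrable.fintype_prod (f := fun S (x : ℝ) => He (O S) x) fun S => he_int (O S)

lemma hm_zero (Z : κ → ℝ) : Hm (fun _ => 0) Z = 1 := by
  unfold Hm
  simp [he_zero]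

lemma hm_integral (O : κ → ℕ) : ∫ Z, Hm O Z ∂(gam κ) = if O = (fun _ => 0) then 1 else 0 := by
  split_ifs with h
  · subst h
    simp only [hm_zero]
    simp
  · have h1 : ∃ S, O S ≠ 0 := by
      by_contra hc
      push Not at hc
      exact h (funext hc)
    obtain ⟨S, hS⟩ := h1
    unfold Hm
    rw [integral_fintype_prod_eq_prod (fun S (x : ℝ) => He (O S) x)]
    apply Finset.prod_eq_zero (Finset.mem_univ S)
    obtain ⟨k, hk⟩ := Nat.exists_eq_succ_of_ne_zero hS
    rw [hk]
    exact he_integral k

end Pool.Agent.Run7.h59.KK
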