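import Pool.Agent.Run7.h59.KK.Walk

/-!
The largest eigenvalue of a symmetric matrix; the Kikuchi matrix.
-/

set_option autoImplicit false

namespace Pool.Agent.Run7.h59.KK

open MeasureTheory ProbabilityTheory Finset

section general

variable {V : Type*} [Fintype V] [DecidableEq V]

/-- the largest value of the quadratic form on the unit sphere -/
noncomputable def lmax (A : Matrix V V ℝ) : ℝ :=
  sSup {t : ℝ | ∃ v : V → ℝ, dotProduct v v = 1 ∧ t = dotProduct v (Matrix.mulVec A v)}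

lemma unit_abs {v : V → ℝ} (hv : dotProduct v v = 1) (i : V) : |v i| ≤ 1 := by
  have h1 : v i * v i ≤ 1 := by
    rw [← hv]
    unfold dotProduct
    exact Finset.single_le_sum (f := fun j => v j * v j) (fun j _ => mul_self_nonneg (v j))
      (Finset.mem_univ i)
  exact abs_le.2 ⟨by nlinarith, by nlinarith⟩

lemma form_diff (A B : Matrix V V ℝ) {v : V → ℝ} (hv : dotProduct v v = 1) :
    dotProduct v (Matrix.mulVec A v) - dotProduct v (Matrix.mulVec B v) ≤
      ∑ i, ∑ j, |A i j - B i j| := by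
  unfold dotProduct Matrix.mulVec dotProduct
  rw [← Finset.sum_sub_distrib]
  apply Finset.sum_le_sum
  intro i _
  rw [← mul_sub, ← Finset.sum_sub_distrib, Finset.mul_sum]
  apply Finset.sum_le_sum
  intro j _
  have h1 := unit_abs hv i
  have h2 := unit_abs hv j
  calc v i * (A i j * v j - B i j * v j) ≤ |v i * (A i j * v j - B i j * v j)| := le_abs_self _
    _ = |v i| * |A i j - B i j| * |v j| := by
        rw [← sub_mul, abs_mul, abs_mul]; ring
    _ ≤ 1 * |A i j - B i j| * 1 := by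
        apply mul_le_mul _ h2 (abs_nonneg _) (by positivity)
        exact mul_le_mul_of_nonneg_right h1 (abs_nonneg _)
    _ = _ := by ring

lemma form_zero {v : V → ℝ} : dotProduct v (Matrix.mulVec (0 : Matrix V V ℝ) v) = 0 := by
  simp

lemma lmax_bdd (A : Matrix V V ℝ) :
    BddAbove {t : ℝ | ∃ v : V → ℝ, dotProduct v v = 1 ∧ t = dotProduct v (Matrix.mulVec A v)} := by
  refine ⟨∑ i, ∑ j, |A i j - (0 : Matrix V V ℝ) i j|, ?_⟩
  rintro t ⟨v, hv, rfl⟩
  have := form_diff A 0 hv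
  rwa [form_zero, sub_zero] at this

lemma le_lmax (A : Matrix V V ℝ) {v : V → ℝ} (hv : dotProduct v v = 1) :
    dotProduct v (Matrix.mulVec A v) ≤ lmax A :=
  le_csSup (lmax_bdd A) ⟨v, hv, rfl⟩

lemma lmax_ne [Nonempty V] (A : Matrix V V ℝ) :
    {t : ℝ | ∃ v : V → ℝ, dotProduct v v = 1 ∧ t = dotProduct v (Matrix.mulVec A v)}.Nonempty := by
  obtain ⟨i⟩ := ‹Nonempty V›
  exact ⟨_, Pi.single i 1, by simp, rfl⟩

lemma lmax_le [Nonempty V] (A : Matrix V V ℝ) {c : ℝ}
    (h : ∀ v : V → ℝ, dotProduct v v = 1 → dotProduct v (Matrix.mulVec A v) ≤ c) :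
    lmax A ≤ c := by
  apply csSup_le (lmax_ne A)
  rintro t ⟨v, hv, rfl⟩
  exact h v hv

lemma lmax_sub [Nonempty V] (A B : Matrix V V ℝ) :
    lmax A ≤ lmax B + ∑ i, ∑ j, |A i j - B i j| := by
  apply lmax_le
  intro v hv
  have h1 := form_diff A B hv
  have h2 := le_lmax B hv
  linarith

lemma mulVec_sq (A : Matrix V V ℝ) (hA : A.IsSymm) (v : V → ℝ) :
    dotProduct (Matrix.mulVec A v) (Matrix.mulVec A v) = dotProduct v (Matrix.mulVec (A * A) v) := by
  rw [← Matrix.mulVec_mulVec, Matrix.dotProduct_mulVec v, ← Matrix.mulVec_transpose, hA]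

lemma form_sq (A : Matrix V V ℝ) (hA : A.IsSymm) {v : V → ℝ} (hv : dotProduct v v = 1) :
    (dotProduct v (Matrix.mulVec A v)) ^ 2 ≤ dotProduct v (Matrix.mulVec (A * A) v) := by
  rw [← mulVec_sq A hA]
  have h := Finset.sum_mul_sq_le_sq_mul_sq Finset.univ v (Matrix.mulVec A v)
  have h1 : ∑ i, v i ^ 2 = 1 := by
    rw [← hv]
    unfold dotProduct
    exact Finset.sum_congr rfl fun i _ => by ring
  have h2 : ∑ i, (Matrix.mulVec A v) i ^ 2 = dotProduct (Matrix.mulVec A v) (Matrix.mulVec A v) := by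
    unfold dotProduct
    exact Finset.sum_congr rfl fun i _ => by ring
  rw [h1, one_mul, h2] at h
  exact h

lemma symm_pow (A : Matrix V V ℝ) (hA : A.IsSymm) (k : ℕ) : (A ^ k).IsSymm := by
  unfold Matrix.IsSymm
  rw [Matrix.transpose_pow, hA]

lemma form_pow (A : Matrix V V ℝ) (hA : A.IsSymm) {v : V → ℝ} (hv : dotProduct v v = 1) :
    ∀ j : ℕ, (dotProduct v (Matrix.mulVec A v)) ^ (2 ^ (j + 1)) ≤
      dotProduct v (Matrix.mulVec (A ^ (2 ^ (j + 1))) v) := by
  intro j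
  induction j with
  | zero =>
    have := form_sq A hA hv
    simpa [pow_two] using this
  | succ j ih =>
    have h1 := form_sq (A ^ (2 ^ (j + 1))) (symm_pow A hA _) hv
    have e : 2 ^ (j + 1 + 1) = 2 ^ (j + 1) * 2 := pow_succ _ _
    rw [← pow_add, ← mul_two, ← e] at h1
    refine le_trans ?_ h1
    rw [e, pow_mul]
    apply pow_le_pow_left₀ _ ih
    rw [pow_succ 2 j, mul_comm, pow_mul]
    positivity

lemma form_trace (A : Matrix V V ℝ) (hA : A.IsSymm) {v : V → ℝ} (hv : dotProduct v v = 1)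
    (j : ℕ) : dotProduct v (Matrix.mulVec (A ^ (2 ^ (j + 1))) v) ≤ (A ^ (2 ^ (j + 1))).trace := by
  obtain ⟨D, hD⟩ : ∃ D, D = A ^ (2 ^ j) := ⟨_, rfl⟩
  have hDs : D.IsSymm := by rw [hD]; exact symm_pow A hA _
  have e : A ^ (2 ^ (j + 1)) = D * D := by
    rw [hD, ← pow_add, ← mul_two, ← pow_succ]
  rw [e, ← mulVec_sq D hDs]
  unfold Matrix.trace Matrix.diag dotProduct
  apply Finset.sum_le_sum
  intro i _
  rw [Matrix.mul_apply]
  have h := Finset.sum_mul_sq_le_sq_mul_sq Finset.univ (fun j => D i j) v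
  have h1 : ∑ i, v i ^ 2 = 1 := by
    rw [← hv]
    unfold dotProduct
    exact Finset.sum_congr rfl fun i _ => by ring
  rw [h1, mul_one] at h
  have h2 : Matrix.mulVec D v i * Matrix.mulVec D v i = (∑ j, D i j * v j) ^ 2 := by
    rw [sq]
    rfl
  rw [h2]
  refine h.trans (le_of_eq (Finset.sum_congr rfl fun j _ => ?_))
  rw [sq]
  congr 1
  have := congrFun (congrFun hDs j) i
  exact this

/-- the trace bound -/
lemma lmax_pow_le [Nonempty V] (A : Matrix V V ℝ) (hA : A.IsSymm) (j : ℕ) :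
    0 ≤ lmax A ^ (2 ^ (j + 1)) ∧ lmax A ^ (2 ^ (j + 1)) ≤ (A ^ (2 ^ (j + 1))).trace := by
  have hK : 2 ^ (j + 1) ≠ 0 := by positivity
  have hev : Even (2 ^ (j + 1)) := by
    rw [pow_succ]; exact even_two.mul_left _
  have hf : ∀ v : V → ℝ, dotProduct v v = 1 →
      (dotProduct v (Matrix.mulVec A v)) ^ (2 ^ (j + 1)) ≤ (A ^ (2 ^ (j + 1))).trace :=
    fun v hv => (form_pow A hA hv j).trans (form_trace A hA hv j)
  obtain ⟨K, hKd⟩ : ∃ K, K = 2 ^ (j + 1) := ⟨_, rfl⟩
  rw [← hKd] at hf hev hK ⊢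
  refine ⟨hev.pow_nonneg _, ?_⟩
  obtain ⟨T, hT⟩ : ∃ T, T = (A ^ K).trace := ⟨_, rfl⟩
  rw [← hT] at hf ⊢
  obtain ⟨i0⟩ := ‹Nonempty V›
  have hT0 : 0 ≤ T := le_trans (hev.pow_nonneg _) (hf (Pi.single i0 1) (by simp))
  obtain ⟨ρ, hρ⟩ : ∃ ρ, ρ = T ^ ((1 : ℝ) / K) := ⟨_, rfl⟩
  have hρ0 : 0 ≤ ρ := by rw [hρ]; positivity
  have hρK : ρ ^ K = T := by
    rw [hρ, ← Real.rpow_natCast, ← Real.rpow_mul hT0]
    have : (1 : ℝ) / K * K = 1 := by
      rw [div_mul_cancel₀]
      exact_mod_cast hK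
    rw [this, Real.rpow_one]
  have hb : ∀ v : V → ℝ, dotProduct v v = 1 → |dotProduct v (Matrix.mulVec A v)| ≤ ρ := by
    intro v hv
    have h1 := hf v hv
    rw [← hρK, ← hev.pow_abs] at h1
    exact le_of_pow_le_pow_left₀ hK hρ0 h1
  have hup : lmax A ≤ ρ := by
    have : Nonempty V := ⟨i0⟩
    exact lmax_le A fun v hv => (abs_le.1 (hb v hv)).2
  have hlo : -ρ ≤ lmax A := by
    have h1 := hb (Pi.single i0 1) (by simp)
    exact (abs_le.1 h1).1.trans (le_lmax A (by simp))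
  rw [← hρK, ← hev.pow_abs]
  exact pow_le_pow_left₀ (abs_nonneg _) (abs_le.2 ⟨hlo, hup⟩) K

end general

/-- The Kikuchi matrix with signal `lam` and noise `Z`: rows and columns are the `ℓ`-subsets of
`[n]`. -/
noncomputable def kik (r ℓ n : ℕ) (lam : ℝ) (Z : Finset (Fin n) → ℝ) :
    Matrix {K : Finset (Fin n) // K.card = ℓ} {K : Finset (Fin n) // K.card = ℓ} ℝ :=
  Matrix.of fun I J =>
    if (symmDiff I.1 J.1).card = r then lam + Z (symmDiff I.1 J.1) else 0

variable {n : ℕ}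

lemma kik_symm (r ℓ : ℕ) (lam : ℝ) (Z : Finset (Fin n) → ℝ) : (kik r ℓ n lam Z).IsSymm := by
  ext I J
  unfold kik
  rw [Matrix.transpose_apply, Matrix.of_apply, Matrix.of_apply, symmDiff_comm]

/-- powers of the noise matrix are sums over walks -/
lemma kik_pow (h ℓ : ℕ) (Z : Finset (Fin n) → ℝ) (I0 : {K : Finset (Fin n) // K.card = ℓ}) :
    ∀ (m : ℕ) (I : {K : Finset (Fin n) // K.card = ℓ}),
      ((kik (2 * h) ℓ n 0 Z) ^ m) I I0 = W h I0.1 m I.1 Z := by
  intro m
  induction m with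
  | zero =>
    intro I
    rw [pow_zero, Matrix.one_apply, W]
    simp only [Subtype.ext_iff]
  | succ m ih =>
    intro I
    rw [pow_succ', Matrix.mul_apply, W]
    have h1 : ∀ J, (kik (2 * h) ℓ n 0 Z) I J * ((kik (2 * h) ℓ n 0 Z) ^ m) J I0 =
        if (symmDiff I.1 J.1).card = 2 * h then Z (symmDiff I.1 J.1) * W h I0.1 m J.1 Z else 0 := by
      intro J
      rw [ih J]
      unfold kik
      rw [Matrix.of_apply]
      split_ifs
      · ring
      · ring
    rw [Finset.sum_congr rfl fun J _ => h1 J, ← Finset.sum_filter]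
    symm
    refine Finset.sum_bij' (fun S hS => (⟨symmDiff I.1 S, by
      rw [(mem_adj.1 hS).2, I.2]⟩ : {K : Finset (Fin n) // K.card = ℓ}))
      (fun J _ => symmDiff I.1 J.1) ?_ ?_ ?_ ?_ ?_
    · intro S hS
      rw [Finset.mem_filter]
      refine ⟨Finset.mem_univ _, ?_⟩
      rw [← symmDiff_assoc, symmDiff_self, bot_symmDiff]
      exact (mem_adj.1 hS).1
    · intro J hJ
      rw [Finset.mem_filter] at hJ
      rw [mem_adj]
      refine ⟨hJ.2, ?_⟩
      rw [← symmDiff_assoc, symmDiff_self, bot_symmDiff, J.2, I.2]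
    · intro S hS
      simp only
      rw [← symmDiff_assoc, symmDiff_self, bot_symmDiff]
    · intro J hJ
      apply Subtype.ext
      simp only
      rw [← symmDiff_assoc, symmDiff_self, bot_symmDiff]
    · intro S hS
      simp only
      rw [← symmDiff_assoc, symmDiff_self, bot_symmDiff]

/-- the mean of the largest eigenvalue -/
noncomputable def El (r ℓ n : ℕ) (lam : ℝ) : ℝ :=
  ∫ Z, lmax (kik r ℓ n lam Z) ∂(gam (Finset (Fin n)))

lemma lmax_lip (r ℓ : ℕ) (lam : ℝ) [Nonempty {K : Finset (Fin n) // K.card = ℓ}]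
    (Z Z' : Finset (Fin n) → ℝ) :
    lmax (kik r ℓ n lam Z) ≤ lmax (kik r ℓ n lam Z') +
      (Fintype.card {K : Finset (Fin n) // K.card = ℓ} : ℝ) ^ 2 * dist Z Z' := by
  refine (lmax_sub _ (kik r ℓ n lam Z')).trans ?_
  apply add_le_add_right
  have h1 : ∀ I J, |kik r ℓ n lam Z I J - kik r ℓ n lam Z' I J| ≤ dist Z Z' := by
    intro I J
    unfold kik
    rw [Matrix.of_apply, Matrix.of_apply]
    split_ifs
    · rw [add_sub_add_left_eq_sub, ← Real.dist_eq]
      exact dist_le_pi_dist Z Z' _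
    · rw [sub_zero, abs_zero]
      exact dist_nonneg
  refine (Finset.sum_le_sum fun I _ => Finset.sum_le_sum fun J _ => h1 I J).trans (le_of_eq ?_)
  rw [Finset.sum_const, Finset.sum_const, Finset.card_univ, nsmul_eq_mul, nsmul_eq_mul]
  ring

lemma lmax_cont (r ℓ : ℕ) (lam : ℝ) [Nonempty {K : Finset (Fin n) // K.card = ℓ}] :
    Continuous fun Z : Finset (Fin n) → ℝ => lmax (kik r ℓ n lam Z) := by
  obtain ⟨C, hC⟩ : ∃ C : NNReal, (C : ℝ) =
      (Fintype.card {K : Finset (Fin n) // K.card = ℓ} : ℝ) ^ 2 := ⟨⟨_, by positivity⟩, rfl⟩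
  have : LipschitzWith C fun Z : Finset (Fin n) → ℝ => lmax (kik r ℓ n lam Z) := by
    apply LipschitzWith.of_dist_le_mul
    intro Z Z'
    rw [Real.dist_eq, hC]
    have h1 := lmax_lip r ℓ lam Z Z'
    have h2 := lmax_lip r ℓ lam Z' Z
    rw [dist_comm Z' Z] at h2
    exact abs_le.2 ⟨by linarith, by linarith⟩
  exact this.continuous

lemma abs_int (S : Finset (Fin n)) :
    Integrable (fun Z : Finset (Fin n) → ℝ => Z S) (gam (Finset (Fin n))) := by
  have h := integrable_comp_eval (μ := fun _ : Finset (Fin n) => gaussianReal 0 1) (i := S)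
    (f := fun x : ℝ => x) (by
      have := (memLp_id_gaussianReal (μ := 0) (v := 1) 1).integrable (by norm_num)
      exact this)
  exact h

lemma lmax_int (r ℓ : ℕ) (lam : ℝ) [Nonempty {K : Finset (Fin n) // K.card = ℓ}] :
    Integrable (fun Z : Finset (Fin n) → ℝ => lmax (kik r ℓ n lam Z)) (gam (Finset (Fin n))) := by
  obtain ⟨C, hC⟩ : ∃ C : ℝ, C =
      (Fintype.card {K : Finset (Fin n) // K.card = ℓ} : ℝ) ^ 2 := ⟨_, rfl⟩
  have hC0 : 0 ≤ C := by rw [hC]; positivity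
  have hd : ∀ Z : Finset (Fin n) → ℝ, dist Z 0 ≤ ∑ S, |Z S| := by
    intro Z
    rw [dist_pi_le_iff (Finset.sum_nonneg fun S _ => abs_nonneg (Z S))]
    intro S
    rw [Pi.zero_apply, Real.dist_eq, sub_zero]
    exact Finset.single_le_sum (f := fun S => |Z S|) (fun T _ => abs_nonneg (Z T))
      (Finset.mem_univ S)
  have hg : Integrable (fun Z : Finset (Fin n) → ℝ =>
      |lmax (kik r ℓ n lam 0)| + C * ∑ S, |Z S|) (gam (Finset (Fin n))) := by
    apply (integrable_const _).add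
    apply Integrable.const_mul
    apply integrable_finsetSum
    intro S _
    exact (abs_int S).abs
  refine hg.mono' (lmax_cont r ℓ lam).aestronglyMeasurable (Filter.Eventually.of_forall fun Z => ?_)
  rw [Real.norm_eq_abs]
  have h1 := lmax_lip r ℓ lam Z 0
  have h2 := lmax_lip r ℓ lam 0 Z
  rw [dist_comm 0 Z] at h2
  rw [← hC] at h1 h2
  have h3 := mul_le_mul_of_nonneg_left (hd Z) hC0
  have h4 := le_abs_self (lmax (kik r ℓ n lam 0))
  have h5 := neg_abs_le (lmax (kik r ℓ n lam 0))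
  exact abs_le.2 ⟨by linarith, by linarith⟩

end Pool.Agent.Run7.h59.KK
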