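import Pool.Agent.Run7.h59.KK.Lmax

/-!
Bounds for the mean of the largest eigenvalue.
-/

set_option autoImplicit false

namespace Pool.Agent.Run7.h59.KK

open MeasureTheory ProbabilityTheory Finset

variable {n : ℕ}

lemma vtx_card (n ℓ : ℕ) : Fintype.card {K : Finset (Fin n) // K.card = ℓ} = n.choose ℓ := by
  rw [Fintype.card_finset_len, Fintype.card_fin]

lemma vtx_ne (n ℓ : ℕ) (h : ℓ ≤ n) : Nonempty {K : Finset (Fin n) // K.card = ℓ} := by
  rw [← Fintype.card_pos_iff, vtx_card]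
  exact Nat.choose_pos h

/-- the moment bound -/
lemma El_pow_le (h ℓ n : ℕ) (hh : 1 ≤ h) (hn : ℓ ≤ n) {t B : ℝ} (ht : 0 < t) (hB : 1 ≤ B)
    (j : ℕ) : (El (2 * h) ℓ n 0) ^ (2 ^ (j + 1)) ≤
      (n.choose ℓ : ℝ) * Lam n ℓ h t B ((2 ^ (j + 1) : ℕ) : ℝ) ^ (2 ^ (j + 1)) := by
  haveI := vtx_ne n ℓ hn
  obtain ⟨K, hK⟩ : ∃ K, K = 2 ^ (j + 1) := ⟨_, rfl⟩
  have hev : Even K := by
    rw [hK, pow_succ]; exact even_two.mul_left _
  have hp : ∀ Z : Finset (Fin n) → ℝ, 0 ≤ lmax (kik (2 * h) ℓ n 0 Z) ^ K ∧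
      lmax (kik (2 * h) ℓ n 0 Z) ^ K ≤ ∑ I : {K : Finset (Fin n) // K.card = ℓ}, W h I.1 K I.1 Z := by
    intro Z
    have := lmax_pow_le (kik (2 * h) ℓ n 0 Z) (kik_symm _ _ _ _) j
    rw [← hK] at this
    refine ⟨this.1, this.2.trans (le_of_eq ?_)⟩
    unfold Matrix.trace Matrix.diag
    exact Finset.sum_congr rfl fun I _ => kik_pow h ℓ Z I K I
  have hWi : Integrable (fun Z : Finset (Fin n) → ℝ =>
      ∑ I : {K : Finset (Fin n) // K.card = ℓ}, W h I.1 K I.1 Z) (gam (Finset (Fin n))) :=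
    integrable_finsetSum _ fun I _ => walk_int h I.1 K I.1
  have hfi : Integrable (fun Z : Finset (Fin n) → ℝ => lmax (kik (2 * h) ℓ n 0 Z) ^ K)
      (gam (Finset (Fin n))) := by
    refine hWi.mono' ((lmax_cont _ _ _).pow K).aestronglyMeasurable
      (Filter.Eventually.of_forall fun Z => ?_)
    rw [Real.norm_eq_abs, abs_of_nonneg (hp Z).1]
    exact (hp Z).2
  have h1 : (El (2 * h) ℓ n 0) ^ K ≤
      ∫ Z, lmax (kik (2 * h) ℓ n 0 Z) ^ K ∂(gam (Finset (Fin n))) := by
    have := ConvexOn.map_integral_le (μ := gam (Finset (Fin n)))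
      (f := fun Z => lmax (kik (2 * h) ℓ n 0 Z)) (g := fun x : ℝ => x ^ K)
      (hev.convexOn_pow) (continuous_pow K).continuousOn isClosed_univ
      (Filter.Eventually.of_forall fun _ => Set.mem_univ _) (lmax_int _ _ _) hfi
    exact this
  have h2 : ∫ Z, lmax (kik (2 * h) ℓ n 0 Z) ^ K ∂(gam (Finset (Fin n))) ≤
      ∑ I : {K : Finset (Fin n) // K.card = ℓ},
        ∫ Z, W h I.1 K I.1 Z ∂(gam (Finset (Fin n))) := by
    rw [← integral_finsetSum _ fun I _ => walk_int h I.1 K I.1]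
    exact integral_mono hfi hWi fun Z => (hp Z).2
  rw [← hK]
  refine h1.trans (h2.trans ?_)
  have h3 : ∀ I : {K : Finset (Fin n) // K.card = ℓ},
      ∫ Z, W h I.1 K I.1 Z ∂(gam (Finset (Fin n))) ≤ Lam n ℓ h t B (K : ℝ) ^ K := by
    intro I
    have := walk_le h hh I.1 ht hB K
    rwa [I.2] at this
  refine (Finset.sum_le_sum fun I _ => h3 I).trans (le_of_eq ?_)
  rw [Finset.sum_const, Finset.card_univ, vtx_card, nsmul_eq_mul]

lemma mean_coord (S : Finset (Fin n)) : ∫ Z, Z S ∂(gam (Finset (Fin n))) = 0 := by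
  have h := integral_comp_eval (μ := fun _ : Finset (Fin n) => gaussianReal 0 1) (i := S)
    (f := fun x : ℝ => x) (by fun_prop)
  rw [h, integral_id_gaussianReal]

lemma kik_int (r ℓ : ℕ) (lam : ℝ) (I J : {K : Finset (Fin n) // K.card = ℓ}) :
    Integrable (fun Z : Finset (Fin n) → ℝ => kik r ℓ n lam Z I J) (gam (Finset (Fin n))) := by
  unfold kik
  simp only [Matrix.of_apply]
  split_ifs
  · exact (integrable_const _).add (abs_int _)
  · exact integrable_const _

lemma kik_mean (r ℓ : ℕ) (lam : ℝ) (I J : {K : Finset (Fin n) // K.card = ℓ}) :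
    ∫ Z, kik r ℓ n lam Z I J ∂(gam (Finset (Fin n))) =
      if (symmDiff I.1 J.1).card = r then lam else 0 := by
  unfold kik
  simp only [Matrix.of_apply]
  split_ifs
  · rw [integral_add (integrable_const _) (abs_int _), mean_coord, integral_const]
    simp
  · simp

/-- the signal -/
lemma El_ge (h ℓ n : ℕ) (hn : ℓ ≤ n) {lam : ℝ} (hl : 0 ≤ lam) :
    lam * ((ℓ.choose h : ℝ) * ((n - ℓ).choose h : ℝ)) ≤ El (2 * h) ℓ n lam := by
  haveI := vtx_ne n ℓ hn
  obtain ⟨N, hN⟩ : ∃ N : ℝ, N = (n.choose ℓ : ℝ) := ⟨_, rfl⟩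
  have hN0 : 0 < N := by
    rw [hN]
    exact_mod_cast Nat.choose_pos hn
  obtain ⟨v, hv⟩ : ∃ v : {K : Finset (Fin n) // K.card = ℓ} → ℝ, v = fun _ => (√N)⁻¹ := ⟨_, rfl⟩
  have hs : (√N)⁻¹ * (√N)⁻¹ = N⁻¹ := by
    rw [← mul_inv, Real.mul_self_sqrt hN0.le]
  have hv1 : dotProduct v v = 1 := by
    unfold dotProduct
    rw [hv]
    simp only [hs]
    rw [Finset.sum_const, Finset.card_univ, vtx_card, nsmul_eq_mul, ← hN, mul_inv_cancel₀ hN0.ne']
  have h1 : ∀ Z : Finset (Fin n) → ℝ, N⁻¹ * ∑ I, ∑ J, kik (2 * h) ℓ n lam Z I J ≤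
      lmax (kik (2 * h) ℓ n lam Z) := by
    intro Z
    refine le_trans (le_of_eq ?_) (le_lmax _ hv1)
    unfold dotProduct Matrix.mulVec dotProduct
    rw [hv, Finset.mul_sum]
    refine Finset.sum_congr rfl fun I _ => ?_
    rw [Finset.mul_sum, Finset.mul_sum]
    refine Finset.sum_congr rfl fun J _ => ?_
    rw [← hs]
    ring
  have hi : Integrable (fun Z : Finset (Fin n) → ℝ => N⁻¹ * ∑ I, ∑ J, kik (2 * h) ℓ n lam Z I J)
      (gam (Finset (Fin n))) :=
    (integrable_finsetSum _ fun I _ => integrable_finsetSum _ fun J _ =>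
      kik_int _ _ _ I J).const_mul _
  have h2 := integral_mono hi (lmax_int (2 * h) ℓ lam) h1
  refine le_trans ?_ h2
  rw [integral_const_mul, integral_finsetSum _ fun I _ => integrable_finsetSum _ fun J _ =>
      kik_int _ _ _ I J]
  have h3 : ∀ I : {K : Finset (Fin n) // K.card = ℓ},
      lam * ((ℓ.choose h : ℝ) * ((n - ℓ).choose h : ℝ)) ≤
      ∫ Z, ∑ J, kik (2 * h) ℓ n lam Z I J ∂(gam (Finset (Fin n))) := by
    intro I
    rw [integral_finsetSum _ fun J _ => kik_int _ _ _ I J]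
    simp only [kik_mean]
    rw [← Finset.sum_filter, Finset.sum_const, nsmul_eq_mul, mul_comm]
    apply mul_le_mul_of_nonneg_right _ hl
    have h4 := card_adj_ge h I.1
    rw [I.2] at h4
    have h5 : (adj h I.1).card ≤ (Finset.univ.filter fun J : {K : Finset (Fin n) // K.card = ℓ} =>
        (symmDiff I.1 J.1).card = 2 * h).card := by
      apply Finset.card_le_card_of_surjOn (fun J => symmDiff I.1 J.1)
      intro S hS
      obtain ⟨a1, a2⟩ := mem_adj.1 (Finset.mem_coe.1 hS)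
      refine ⟨⟨symmDiff I.1 S, by rw [a2, I.2]⟩, ?_, ?_⟩
      · rw [Finset.mem_coe, Finset.mem_filter]
        refine ⟨Finset.mem_univ _, ?_⟩
        simp only
        rw [← symmDiff_assoc, symmDiff_self, bot_symmDiff, a1]
      · simp only
        rw [← symmDiff_assoc, symmDiff_self, bot_symmDiff]
    exact_mod_cast h4.trans h5
  have h4 := Finset.sum_le_sum fun I (_ : I ∈ (Finset.univ : Finset
    {K : Finset (Fin n) // K.card = ℓ})) => h3 I
  rw [Finset.sum_const, Finset.card_univ, vtx_card, nsmul_eq_mul, ← hN] at h4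
  calc _ = N⁻¹ * (N * (lam * ((ℓ.choose h : ℝ) * ((n - ℓ).choose h : ℝ)))) := by
        rw [inv_mul_cancel_left₀ hN0.ne']
    _ ≤ _ := mul_le_mul_of_nonneg_left h4 (by positivity)

/-- positivity -/
lemma El_pos (h ℓ n : ℕ) (hh : 1 ≤ h) (hl : h ≤ ℓ) (hn : ℓ + h ≤ n) : 0 < El (2 * h) ℓ n 0 := by
  haveI := vtx_ne n ℓ (by omega)
  obtain ⟨I⟩ := vtx_ne n ℓ (by omega)
  have h1 := card_adj_ge h I.1
  rw [I.2] at h1
  have h2 : 0 < (adj h I.1).card :=
    lt_of_lt_of_le (Nat.mul_pos (Nat.choose_pos hl) (Nat.choose_pos (by omega))) h1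
  obtain ⟨S, hS⟩ := Finset.card_pos.1 h2
  obtain ⟨a1, a2⟩ := mem_adj.1 hS
  obtain ⟨J, hJ⟩ : ∃ J : {K : Finset (Fin n) // K.card = ℓ}, J.1 = symmDiff I.1 S :=
    ⟨⟨symmDiff I.1 S, by rw [a2, I.2]⟩, rfl⟩
  have hIJ : symmDiff I.1 J.1 = S := by
    rw [hJ, ← symmDiff_assoc, symmDiff_self, bot_symmDiff]
  have hne : I ≠ J := by
    intro hc
    rw [← hc, symmDiff_self] at hIJ
    rw [← hIJ] at a1
    simp at a1
    omega
  have hlow : ∀ Z : Finset (Fin n) → ℝ, |Z S| ≤ lmax (kik (2 * h) ℓ n 0 Z) := by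
    intro Z
    have e1 : kik (2 * h) ℓ n 0 Z I J = Z S := by
      unfold kik
      rw [Matrix.of_apply, hIJ, if_pos a1, zero_add]
    have e2 : kik (2 * h) ℓ n 0 Z J I = Z S := by
      unfold kik
      rw [Matrix.of_apply, symmDiff_comm, hIJ, if_pos a1, zero_add]
    have e3 : ∀ L : {K : Finset (Fin n) // K.card = ℓ}, kik (2 * h) ℓ n 0 Z L L = 0 := by
      intro L
      unfold kik
      rw [Matrix.of_apply, symmDiff_self, if_neg]
      simp
      omega
    have key : ∀ s : ℝ, s ^ 2 = 1 → s * Z S ≤ lmax (kik (2 * h) ℓ n 0 Z) := by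
      intro s hs
      obtain ⟨q, hq⟩ : ∃ q : ℝ, q = (√2)⁻¹ := ⟨_, rfl⟩
      have hq2 : q * q = 1 / 2 := by
        rw [hq, ← mul_inv, Real.mul_self_sqrt (by norm_num)]
        norm_num
      obtain ⟨v, hv⟩ : ∃ v : {K : Finset (Fin n) // K.card = ℓ} → ℝ,
          v = q • (Pi.single I 1 + s • Pi.single J 1) := ⟨_, rfl⟩
      have hv1 : dotProduct v v = 1 := by
        rw [hv, smul_dotProduct, dotProduct_smul, add_dotProduct, dotProduct_add,
          dotProduct_add]
        simp only [smul_eq_mul, smul_dotProduct, dotProduct_smul, single_dotProduct,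
          Pi.single_eq_same, Pi.single_apply, Pi.smul_apply]
        simp only [if_neg hne, if_neg hne.symm, if_true]
        nlinarith
      have hv2 : dotProduct v (Matrix.mulVec (kik (2 * h) ℓ n 0 Z) v) = s * Z S := by
        rw [hv, Matrix.mulVec_smul, Matrix.mulVec_add, Matrix.mulVec_smul, smul_dotProduct,
          dotProduct_smul, add_dotProduct, dotProduct_add, dotProduct_add]
        simp only [smul_eq_mul, smul_dotProduct, dotProduct_smul, single_dotProduct,
          Matrix.mulVec_single_one, Matrix.col_apply]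
        rw [e1, e2, e3, e3]
        linear_combination (2 * s * Z S) * hq2
      rw [← hv2]
      exact le_lmax _ hv1
    rcases abs_cases (Z S) with ⟨h3, _⟩ | ⟨h3, _⟩
    · rw [h3]
      have := key 1 (by norm_num)
      linarith
    · rw [h3]
      have := key (-1) (by norm_num)
      linarith
  have hai : Integrable (fun Z : Finset (Fin n) → ℝ => |Z S|) (gam (Finset (Fin n))) :=
    (abs_int S).abs
  have h3 := integral_mono hai (lmax_int (2 * h) ℓ 0) hlow
  refine lt_of_lt_of_le ?_ h3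
  have h4 : ∫ Z : Finset (Fin n) → ℝ, |Z S| ∂(gam (Finset (Fin n))) =
      ∫ x, |x| ∂(gaussianReal 0 1) := by
    exact integral_comp_eval (μ := fun _ : Finset (Fin n) => gaussianReal 0 1) (i := S)
      (f := fun x : ℝ => |x|) (by fun_prop)
  rw [h4]
  have h5 : 0 ≤ ∫ x, |x| ∂(gaussianReal 0 1) := integral_nonneg fun x => abs_nonneg x
  rcases h5.lt_or_eq with h6 | h6
  · exact h6
  · exfalso
    have hi1 : Integrable (fun x : ℝ => |x|) (gaussianReal 0 1) :=
      ((memLp_id_gaussianReal (μ := 0) (v := 1) 1).integrable (by norm_num)).abs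
    have h7 := (integral_eq_zero_iff_of_nonneg (fun x => abs_nonneg x) hi1).1 h6.symm
    have h8 : ∫ x, x * (Polynomial.X : Polynomial ℝ).eval x ∂(gaussianReal 0 1) = 0 := by
      have : (fun x : ℝ => x * (Polynomial.X : Polynomial ℝ).eval x) =ᵐ[gaussianReal 0 1] 0 := by
        filter_upwards [h7] with x hx
        have : x = 0 := abs_eq_zero.1 hx
        rw [this]
        simp
      rw [integral_congr_ae this]
      simp
    rw [Pool.Agent.Helper649.Zono.stein] at h8
    simp at h8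

end Pool.Agent.Run7.h59.KK
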