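import Pool.Agent.Run7.h59.KK.Herm
import Pool.Agent.Run7.h59.KK.Comb

/-!
Walks on the Kikuchi graph, Wick recursion and the potential.
-/

set_option autoImplicit false

namespace Pool.Agent.Run7.h59.KK

open MeasureTheory ProbabilityTheory Finset

variable {n : ℕ}

/-- sum over the walks of length `m` from `I` to `I0` -/
noncomputable def W (h : ℕ) (I0 : Finset (Fin n)) :
    ℕ → Finset (Fin n) → (Finset (Fin n) → ℝ) → ℝ
  | 0, I, _ => if I = I0 then 1 else 0
  | m + 1, I, Z => ∑ S ∈ adj h I, Z S * W h I0 m (symmDiff I S) Z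

/-- the number of open edges -/
def tot (O : Finset (Fin n) → ℕ) : ℕ := ∑ S, O S

/-- the elements seen -/
def VV (I0 : Finset (Fin n)) (O : Finset (Fin n) → ℕ) : Finset (Fin n) :=
  Finset.univ.filter fun x => x ∈ I0 ∨ ∃ S, O S ≠ 0 ∧ x ∈ S

/-- `I` is the symmetric difference of `I0` and the open edges -/
def par (I0 : Finset (Fin n)) (O : Finset (Fin n) → ℕ) (I : Finset (Fin n)) : Prop :=
  ∀ x, x ∈ I ↔ Odd ((if x ∈ I0 then 1 else 0) + ∑ S, if x ∈ S then O S else 0)

/-- the potential -/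
noncomputable def phi (I0 : Finset (Fin n)) (h : ℕ) (t B : ℝ) (O : Finset (Fin n) → ℕ) : ℝ :=
  (t * B ^ h) ^ (tot O) * (B ^ I0.card * (B⁻¹) ^ ((VV I0 O).card))

/-- the private elements of `S` -/
def pv (I0 : Finset (Fin n)) (O : Finset (Fin n) → ℕ) (S : Finset (Fin n)) : Finset (Fin n) :=
  S.filter fun x => x ∉ I0 ∧ O S = 1 ∧ ∀ T, T ≠ S → O T ≠ 0 → x ∉ T

lemma mem_VV {I0 : Finset (Fin n)} {O : Finset (Fin n) → ℕ} {x : Fin n} :
    x ∈ VV I0 O ↔ x ∈ I0 ∨ ∃ S, O S ≠ 0 ∧ x ∈ S := by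
  unfold VV; simp

lemma mem_pv {I0 : Finset (Fin n)} {O : Finset (Fin n) → ℕ} {S : Finset (Fin n)} {x : Fin n} :
    x ∈ pv I0 O S ↔ x ∈ S ∧ x ∉ I0 ∧ O S = 1 ∧ ∀ T, T ≠ S → O T ≠ 0 → x ∉ T := by
  unfold pv; simp

lemma tot_up (O : Finset (Fin n) → ℕ) (S : Finset (Fin n)) : tot (up O S) = tot O + 1 := by
  unfold tot up
  rw [← Finset.add_sum_erase _ _ (Finset.mem_univ S), ← Finset.add_sum_erase _ O (Finset.mem_univ S)]
  have : ∑ T ∈ Finset.univ.erase S, Function.update O S (O S + 1) T =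
      ∑ T ∈ Finset.univ.erase S, O T := by
    refine Finset.sum_congr rfl fun T hT => ?_
    rw [Function.update_of_ne (Finset.ne_of_mem_erase hT)]
  rw [this]
  simp
  ring

lemma up_dn (O : Finset (Fin n) → ℕ) (S : Finset (Fin n)) (hS : O S ≠ 0) : up (dn O S) S = O := by
  unfold up dn
  funext T
  by_cases hT : T = S
  · subst hT
    simp
    omega
  · simp [hT]

lemma tot_dn (O : Finset (Fin n) → ℕ) (S : Finset (Fin n)) (hS : O S ≠ 0) :
    tot O = tot (dn O S) + 1 := by
  have := tot_up (dn O S) S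
  rwa [up_dn O S hS] at this

lemma par_up (I0 : Finset (Fin n)) (O : Finset (Fin n) → ℕ) (I S : Finset (Fin n)) :
    par I0 (up O S) (symmDiff I S) ↔ par I0 O I := by
  have h1 : ∀ x, (∑ T, if x ∈ T then (up O S) T else 0) =
      (∑ T, if x ∈ T then O T else 0) + if x ∈ S then 1 else 0 := by
    intro x
    rw [← Finset.add_sum_erase _ _ (Finset.mem_univ S),
      ← Finset.add_sum_erase _ (fun T => if x ∈ T then O T else 0) (Finset.mem_univ S)]
    have : ∑ T ∈ Finset.univ.erase S, (if x ∈ T then (up O S) T else 0) =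
        ∑ T ∈ Finset.univ.erase S, if x ∈ T then O T else 0 := by
      refine Finset.sum_congr rfl fun T hT => ?_
      unfold up
      rw [Function.update_of_ne (Finset.ne_of_mem_erase hT)]
    rw [this]
    unfold up
    rw [Function.update_self]
    split_ifs <;> ring
  unfold par
  apply forall_congr'
  intro x
  rw [h1 x, Finset.mem_symmDiff]
  obtain ⟨s, hs⟩ : ∃ s, s = (if x ∈ I0 then 1 else 0) + ∑ T, if x ∈ T then O T else 0 := ⟨_, rfl⟩
  rw [← add_assoc, ← hs]
  by_cases hx : x ∈ S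
  · simp only [hx, not_true_eq_false, and_false, true_and, false_or, if_true]
    rw [Nat.odd_add_one]
    tauto
  · simp only [hx, not_false_eq_true, and_true, false_and, or_false, if_false, add_zero]

lemma par_dn (I0 : Finset (Fin n)) (O : Finset (Fin n) → ℕ) (I S : Finset (Fin n)) (hS : O S ≠ 0) :
    par I0 (dn O S) (symmDiff I S) ↔ par I0 O I := by
  have h := par_up I0 (dn O S) (symmDiff I S) S
  rw [up_dn O S hS, symmDiff_assoc, symmDiff_self, symmDiff_bot] at h
  exact h.symm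

lemma par_zero (I0 I : Finset (Fin n)) : par I0 (fun _ => 0) I ↔ I = I0 := by
  unfold par
  rw [Finset.ext_iff]
  apply forall_congr'
  intro x
  simp only [ite_self, Finset.sum_const_zero, add_zero]
  split_ifs with h
  · simp [h]
  · simp [h]

lemma sub_VV {I0 I : Finset (Fin n)} {O : Finset (Fin n) → ℕ} (hp : par I0 O I) : I ⊆ VV I0 O := by
  intro x hx
  have h1 := (hp x).1 hx
  rw [mem_VV]
  by_contra hc
  push Not at hc
  have h2 : (∑ S, if x ∈ S then O S else 0) = 0 := by
    apply Finset.sum_eq_zero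
    intro S _
    split_ifs with h
    · by_contra h3
      exact hc.2 S h3 h
    · rfl
  rw [h2, if_neg hc.1] at h1
  simp at h1

lemma VV_up (I0 : Finset (Fin n)) (O : Finset (Fin n) → ℕ) (S : Finset (Fin n)) :
    (VV I0 (up O S)).card = (VV I0 O).card + (S \ VV I0 O).card := by
  rw [← Finset.card_union_of_disjoint Finset.disjoint_sdiff]
  congr 1
  ext x
  rw [Finset.mem_union, Finset.mem_sdiff, mem_VV, mem_VV]
  unfold up
  constructor
  · rintro (h | ⟨T, hT, hx⟩)
    · exact Or.inl (Or.inl h)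
    · by_cases hTS : T = S
      · subst hTS
        by_cases h3 : x ∈ I0 ∨ ∃ S, O S ≠ 0 ∧ x ∈ S
        · exact Or.inl h3
        · exact Or.inr ⟨hx, h3⟩
      · rw [Function.update_of_ne hTS] at hT
        exact Or.inl (Or.inr ⟨T, hT, hx⟩)
  · rintro ((h | ⟨T, hT, hx⟩) | ⟨h, _⟩)
    · exact Or.inl h
    · refine Or.inr ⟨T, ?_, hx⟩
      by_cases hTS : T = S
      · subst hTS
        simp
      · rw [Function.update_of_ne hTS]
        exact hT
    · exact Or.inr ⟨S, by simp, h⟩

lemma VV_dn (I0 : Finset (Fin n)) (O : Finset (Fin n) → ℕ) (S : Finset (Fin n)) :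
    (VV I0 O).card ≤ (VV I0 (dn O S)).card + (pv I0 O S).card := by
  refine le_trans (Finset.card_le_card ?_) (Finset.card_union_le _ _)
  intro x hx
  rw [Finset.mem_union, mem_VV, mem_pv]
  rw [mem_VV] at hx
  by_cases h0 : x ∈ I0
  · exact Or.inl (Or.inl h0)
  by_cases h1 : ∃ T, T ≠ S ∧ O T ≠ 0 ∧ x ∈ T
  · obtain ⟨T, hT, hO, hxT⟩ := h1
    refine Or.inl (Or.inr ⟨T, ?_, hxT⟩)
    unfold dn
    rw [Function.update_of_ne hT]
    exact hO
  · push Not at h1
    rcases hx with hx | ⟨T, hT, hxT⟩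
    · exact absurd hx h0
    · by_cases hTS : T = S
      · subst hTS
        by_cases h2 : O T = 1
        · exact Or.inr ⟨hxT, h0, h2, h1⟩
        · refine Or.inl (Or.inr ⟨T, ?_, hxT⟩)
          unfold dn
          rw [Function.update_self]
          omega
      · exact absurd hxT (h1 T hTS hT)

lemma pv_sub {I0 I : Finset (Fin n)} {O : Finset (Fin n) → ℕ} (hp : par I0 O I)
    (S : Finset (Fin n)) : pv I0 O S ⊆ S ∩ I := by
  intro x hx
  rw [mem_pv] at hx
  obtain ⟨h1, h2, h3, h4⟩ := hx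
  rw [Finset.mem_inter]
  refine ⟨h1, (hp x).2 ?_⟩
  rw [if_neg h2, zero_add, ← Finset.add_sum_erase _ _ (Finset.mem_univ S), if_pos h1, h3]
  have : ∑ T ∈ Finset.univ.erase S, (if x ∈ T then O T else 0) = 0 := by
    apply Finset.sum_eq_zero
    intro T hT
    split_ifs with h
    · by_contra h5
      exact h4 T (Finset.ne_of_mem_erase hT) h5 h
    · rfl
  rw [this]
  simp

lemma pv_disj {I0 : Finset (Fin n)} {O : Finset (Fin n) → ℕ} {S T : Finset (Fin n)} (hST : S ≠ T) :
    Disjoint (pv I0 O S) (pv I0 O T) := by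
  rw [Finset.disjoint_left]
  intro x hx hy
  rw [mem_pv] at hx hy
  exact hx.2.2.2 T hST.symm (by rw [hy.2.2.1]; exact one_ne_zero) hy.1

lemma card_VV_le (I0 : Finset (Fin n)) (h : ℕ) (O : Finset (Fin n) → ℕ)
    (hg : ∀ S, O S ≠ 0 → S.card = 2 * h) : (VV I0 O).card ≤ I0.card + 2 * h * tot O := by
  have h1 : VV I0 O ⊆ I0 ∪ (Finset.univ.filter fun S => O S ≠ 0).biUnion id := by
    intro x hx
    rw [mem_VV] at hx
    rw [Finset.mem_union, Finset.mem_biUnion]
    rcases hx with hx | ⟨S, hS, hx⟩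
    · exact Or.inl hx
    · exact Or.inr ⟨S, by simp [hS], hx⟩
  refine (Finset.card_le_card h1).trans ((Finset.card_union_le _ _).trans ?_)
  apply Nat.add_le_add_left
  refine Finset.card_biUnion_le.trans ?_
  unfold tot
  rw [Finset.mul_sum]
  refine le_trans (Finset.sum_le_sum (g := fun S => 2 * h * O S) ?_)
    (Finset.sum_le_sum_of_subset (Finset.filter_subset _ _))
  intro S hS
  have hO := (Finset.mem_filter.1 hS).2
  rw [id, hg S hO]
  exact Nat.le_mul_of_pos_right _ (Nat.pos_of_ne_zero hO)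

lemma phi_nonneg (I0 : Finset (Fin n)) (h : ℕ) {t B : ℝ} (ht : 0 < t) (hB : 1 ≤ B)
    (O : Finset (Fin n) → ℕ) : 0 ≤ phi I0 h t B O := by
  unfold phi
  have : 0 < B := by linarith
  positivity

/-- the openings -/
lemma opens (I0 I : Finset (Fin n)) (h : ℕ) {t B v : ℝ} (ht : 0 < t) (hB : 1 ≤ B)
    (O : Finset (Fin n) → ℕ) (hp : par I0 O I) (hI : I.card = I0.card)
    (hv : ((VV I0 O).card : ℝ) ≤ v) :
    ∑ S ∈ adj h I, phi I0 h t B (up O S) ≤
      phi I0 h t B O * (t * ((I0.card.choose h : ℝ) * ((n + B * v) ^ h / (h.factorial : ℝ)))) := by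
  have hB0 : 0 < B := by linarith
  obtain ⟨w, hw⟩ : ∃ w : Fin n → ℝ, w = fun x => if x ∈ VV I0 O then B else 1 := ⟨_, rfl⟩
  have hw0 : ∀ x, 0 ≤ w x := by
    intro x
    rw [hw]
    simp only
    split_ifs <;> linarith
  have hsub := sub_VV hp
  have h1 : ∀ S ∈ adj h I, phi I0 h t B (up O S) =
      phi I0 h t B O * t * ∏ x ∈ S \ I, w x := by
    intro S hS
    have hc := (adj_card hS).2
    unfold phi
    rw [tot_up, VV_up]
    have e1 : S \ VV I0 O = (S \ I).filter fun x => ¬ x ∈ VV I0 O := by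
      ext x
      simp only [Finset.mem_sdiff, Finset.mem_filter]
      constructor
      · exact fun h => ⟨⟨h.1, fun h2 => h.2 (hsub h2)⟩, h.2⟩
      · exact fun h => ⟨h.1.1, h.2⟩
    have e2 : ∏ x ∈ S \ I, w x = B ^ ((S \ I).filter fun x => x ∈ VV I0 O).card := by
      rw [hw, Finset.prod_ite, Finset.prod_const, Finset.prod_const_one, mul_one]
    have e3 := Finset.card_filter_add_card_filter_not (s := S \ I) (fun x => x ∈ VV I0 O)
    rw [hc, ← e1] at e3
    rw [e2]
    obtain ⟨a, ha⟩ : ∃ a, a = ((S \ I).filter fun x => x ∈ VV I0 O).card := ⟨_, rfl⟩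
    obtain ⟨b, hb⟩ : ∃ b, b = (S \ VV I0 O).card := ⟨_, rfl⟩
    rw [← ha, ← hb] at e3 ⊢
    have e4 : B ^ h * (B⁻¹) ^ b = B ^ a := by
      rw [← e3, pow_add, mul_assoc, ← mul_pow, mul_inv_cancel₀ hB0.ne', one_pow, mul_one]
    rw [pow_succ, pow_add, ← e4]
    ring
  rw [Finset.sum_congr rfl h1, ← Finset.mul_sum]
  have h2 := sum_adj_le h I (fun A => ∏ x ∈ A, w x) (fun A => Finset.prod_nonneg fun x _ => hw0 x)
  have h3 := esymm_le Iᶜ w hw0 h
  have h4 : ∑ x ∈ Iᶜ, w x ≤ n + B * v := by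
    have : ∑ x ∈ Iᶜ, w x ≤ ∑ x : Fin n, w x :=
      Finset.sum_le_sum_of_subset_of_nonneg (Finset.subset_univ _) fun x _ _ => hw0 x
    refine this.trans ?_
    have h5 : ∀ x : Fin n, w x ≤ 1 + if x ∈ VV I0 O then B else 0 := by
      intro x
      rw [hw]
      simp only
      split_ifs <;> linarith
    refine (Finset.sum_le_sum fun x _ => h5 x).trans ?_
    rw [Finset.sum_add_distrib, Finset.sum_const, Finset.card_univ, Fintype.card_fin,
      nsmul_eq_mul, mul_one, Finset.sum_ite_mem, Finset.univ_inter, Finset.sum_const, nsmul_eq_mul]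
    nlinarith
  have h5 : (∑ x ∈ Iᶜ, w x) ^ h / (h.factorial : ℝ) ≤ (n + B * v) ^ h / (h.factorial : ℝ) := by
    apply div_le_div_of_nonneg_right _ (by positivity)
    exact pow_le_pow_left₀ (Finset.sum_nonneg fun x _ => hw0 x) h4 h
  rw [hI] at h2
  have h6 : 0 ≤ phi I0 h t B O * t := mul_nonneg (phi_nonneg I0 h ht hB O) ht.le
  calc _ ≤ phi I0 h t B O * t * ((I0.card.choose h : ℝ) * ((n + B * v) ^ h / (h.factorial : ℝ))) := by
        apply mul_le_mul_of_nonneg_left _ h6
        exact h2.trans (mul_le_mul_of_nonneg_left (h3.trans h5) (Nat.cast_nonneg _))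
    _ = _ := by ring

/-- the closings -/
lemma closes (I0 I : Finset (Fin n)) (h : ℕ) (hh : 1 ≤ h) {t B K : ℝ} (ht : 0 < t) (hB : 1 ≤ B)
    (O : Finset (Fin n) → ℕ) (hp : par I0 O I) (hI : I.card = I0.card) (hK : (tot O : ℝ) ≤ K) :
    ∑ S ∈ adj h I, (O S : ℝ) * phi I0 h t B (dn O S) ≤
      phi I0 h t B O * (t⁻¹ * ((I0.card : ℝ) / h + K / B)) := by
  have hB0 : 0 < B := by linarith
  have hh0 : (0 : ℝ) < h := by exact_mod_cast hh
  have h1 : ∀ S ∈ adj h I, (O S : ℝ) * phi I0 h t B (dn O S) ≤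
      phi I0 h t B O * (t * B ^ h)⁻¹ *
        ((if (pv I0 O S).card = h then B ^ h else 0) + (O S : ℝ) * B ^ (h - 1)) := by
    intro S hS
    have hc := (adj_card hS).1
    have hphi := phi_nonneg I0 h ht hB O
    have hq : 0 ≤ phi I0 h t B O * (t * B ^ h)⁻¹ := by positivity
    by_cases hO : O S = 0
    · rw [hO]
      simp only [Nat.cast_zero, zero_mul, add_zero]
      apply mul_nonneg hq
      split_ifs
      · positivity
      · exact le_rfl
    · have e1 : phi I0 h t B (dn O S) ≤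
          phi I0 h t B O * (t * B ^ h)⁻¹ * B ^ (pv I0 O S).card := by
        unfold phi
        rw [tot_dn O S hO]
        have e2 := VV_dn I0 O S
        obtain ⟨a, ha⟩ : ∃ a, a = (VV I0 O).card := ⟨_, rfl⟩
        obtain ⟨b, hb⟩ : ∃ b, b = (VV I0 (dn O S)).card := ⟨_, rfl⟩
        obtain ⟨c, hc⟩ : ∃ c, c = (pv I0 O S).card := ⟨_, rfl⟩
        rw [← ha, ← hb, ← hc] at e2 ⊢
        have e3 : (B⁻¹) ^ b ≤ (B⁻¹) ^ a * B ^ c := by
          have e4 : (B⁻¹) ^ (b + c) ≤ (B⁻¹) ^ a :=
            pow_le_pow_of_le_one (by positivity) (inv_le_one_of_one_le₀ hB) e2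
          calc (B⁻¹) ^ b = (B⁻¹) ^ (b + c) * B ^ c := by
                rw [pow_add, mul_assoc, ← mul_pow, inv_mul_cancel₀ hB0.ne', one_pow, mul_one]
            _ ≤ _ := mul_le_mul_of_nonneg_right e4 (by positivity)
        have e5 : (t * B ^ h) ^ (tot (dn O S) + 1) * (B ^ I0.card * B⁻¹ ^ a) * (t * B ^ h)⁻¹ * B ^ c =
            (t * B ^ h) ^ (tot (dn O S)) * (B ^ I0.card * (B⁻¹ ^ a * B ^ c)) := by
          rw [pow_succ]
          have : t * B ^ h ≠ 0 := by positivity
          field_simp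
        rw [e5]
        apply mul_le_mul_of_nonneg_left _ (by positivity)
        exact mul_le_mul_of_nonneg_left e3 (by positivity)
      have e2 : (O S : ℝ) * B ^ (pv I0 O S).card ≤
          (if (pv I0 O S).card = h then B ^ h else 0) + (O S : ℝ) * B ^ (h - 1) := by
        have hle : (pv I0 O S).card ≤ h := by
          rw [← hc]
          exact Finset.card_le_card (pv_sub hp S)
        split_ifs with h3
        · have h4 : (pv I0 O S).Nonempty := by
            rw [← Finset.card_pos, h3]; omega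
          obtain ⟨x, hx⟩ := h4
          have h5 := (mem_pv.1 hx).2.2.1
          rw [h3, h5]
          have : 0 < B ^ (h - 1) := by positivity
          push_cast
          linarith
        · rw [zero_add]
          apply mul_le_mul_of_nonneg_left _ (Nat.cast_nonneg _)
          exact pow_le_pow_right₀ hB (by omega)
      calc _ ≤ (O S : ℝ) * (phi I0 h t B O * (t * B ^ h)⁻¹ * B ^ (pv I0 O S).card) :=
            mul_le_mul_of_nonneg_left e1 (Nat.cast_nonneg _)
        _ = phi I0 h t B O * (t * B ^ h)⁻¹ * ((O S : ℝ) * B ^ (pv I0 O S).card) := by ring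
        _ ≤ _ := mul_le_mul_of_nonneg_left e2 hq
  refine (Finset.sum_le_sum h1).trans ?_
  rw [← Finset.mul_sum, Finset.sum_add_distrib, ← Finset.sum_mul]
  have hR : ∑ S ∈ adj h I, (if (pv I0 O S).card = h then B ^ h else 0) ≤
      (I0.card : ℝ) / h * B ^ h := by
    rw [← Finset.sum_filter, Finset.sum_const, nsmul_eq_mul]
    apply mul_le_mul_of_nonneg_right _ (by positivity)
    rw [le_div_iff₀ hh0]
    have h3 : ((adj h I).filter fun S => (pv I0 O S).card = h).card * h ≤ I0.card := by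
      rw [← hI]
      have h4 : (((adj h I).filter fun S => (pv I0 O S).card = h).biUnion (pv I0 O)) ⊆ I := by
        intro x hx
        obtain ⟨S, _, hx⟩ := Finset.mem_biUnion.1 hx
        exact (Finset.mem_inter.1 (pv_sub hp S hx)).2
      have h5 := Finset.card_le_card h4
      rw [Finset.card_biUnion (fun S _ T _ hST => pv_disj hST)] at h5
      refine le_trans (le_of_eq ?_) h5
      rw [Finset.sum_congr rfl (fun S hS => (Finset.mem_filter.1 hS).2), Finset.sum_const,
        smul_eq_mul]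
    exact_mod_cast h3
  have hT : (∑ S ∈ adj h I, (O S : ℝ)) ≤ K := by
    refine le_trans ?_ hK
    unfold tot
    push_cast
    exact Finset.sum_le_sum_of_subset_of_nonneg (Finset.subset_univ _) fun S _ _ =>
      Nat.cast_nonneg _
  have hq : 0 ≤ phi I0 h t B O * (t * B ^ h)⁻¹ := by
    have := phi_nonneg I0 h ht hB O
    positivity
  have hBh : B ^ h = B * B ^ (h - 1) := by
    rw [← pow_succ']
    congr 1
    omega
  calc _ ≤ phi I0 h t B O * (t * B ^ h)⁻¹ * ((I0.card : ℝ) / h * B ^ h + K * B ^ (h - 1)) := by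
        apply mul_le_mul_of_nonneg_left _ hq
        exact add_le_add hR (mul_le_mul_of_nonneg_right hT (by positivity))
    _ = _ := by
        rw [hBh]
        have : 0 < B ^ (h - 1) := by positivity
        field_simp

end Pool.Agent.Run7.h59.KK
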