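import Pool.Agent.Run7.h59.KK.Rec

/-!
The mean number of weighted walks is bounded by the potential.
-/

set_option autoImplicit false

namespace Pool.Agent.Run7.h59.KK

open MeasureTheory ProbabilityTheory Finset

variable {n : ℕ}

/-- the mean -/
noncomputable def G (h : ℕ) (I0 : Finset (Fin n)) (m : ℕ) (I : Finset (Fin n))
    (O : Finset (Fin n) → ℕ) : ℝ := ∫ Z, W h I0 m I Z * Hm O Z ∂(gam (Finset (Fin n)))

lemma W_step (h : ℕ) (I0 : Finset (Fin n)) (m : ℕ) (I : Finset (Fin n))
    (O : Finset (Fin n) → ℕ) (Z : Finset (Fin n) → ℝ) :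
    W h I0 (m + 1) I Z * Hm O Z = ∑ S ∈ adj h I, (W h I0 m (symmDiff I S) Z * Hm (up O S) Z +
      (O S : ℝ) * (W h I0 m (symmDiff I S) Z * Hm (dn O S) Z)) := by
  rw [W, Finset.sum_mul]
  refine Finset.sum_congr rfl fun S _ => ?_
  have := hm_rec O S Z
  calc Z S * W h I0 m (symmDiff I S) Z * Hm O Z = W h I0 m (symmDiff I S) Z * (Z S * Hm O Z) := by
        ring
    _ = _ := by rw [this]; ring

lemma W_int (h : ℕ) (I0 : Finset (Fin n)) : ∀ (m : ℕ) (I : Finset (Fin n))
    (O : Finset (Fin n) → ℕ),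
    Integrable (fun Z => W h I0 m I Z * Hm O Z) (gam (Finset (Fin n))) := by
  intro m
  induction m with
  | zero =>
    intro I O
    simp only [W]
    exact (hm_int O).const_mul _
  | succ m ih =>
    intro I O
    simp only [W_step]
    apply integrable_finsetSum
    intro S _
    exact (ih _ _).add ((ih _ _).const_mul _)

lemma G_succ (h : ℕ) (I0 : Finset (Fin n)) (m : ℕ) (I : Finset (Fin n))
    (O : Finset (Fin n) → ℕ) :
    G h I0 (m + 1) I O = ∑ S ∈ adj h I, (G h I0 m (symmDiff I S) (up O S) +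
      (O S : ℝ) * G h I0 m (symmDiff I S) (dn O S)) := by
  unfold G
  simp only [W_step]
  rw [integral_finsetSum]
  · refine Finset.sum_congr rfl fun S _ => ?_
    rw [integral_add (W_int h I0 _ _ _) ((W_int h I0 _ _ _).const_mul _), integral_const_mul]
  · intro S _
    exact (W_int h I0 _ _ _).add ((W_int h I0 _ _ _).const_mul _)

lemma G_zero (h : ℕ) (I0 : Finset (Fin n)) (I : Finset (Fin n)) (O : Finset (Fin n) → ℕ) :
    G h I0 0 I O = (if I = I0 then 1 else 0) * (if O = (fun _ => 0) then 1 else 0) := by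
  unfold G
  simp only [W]
  rw [integral_const_mul, hm_integral]

lemma G_par (h : ℕ) (I0 : Finset (Fin n)) : ∀ (m : ℕ) (I : Finset (Fin n))
    (O : Finset (Fin n) → ℕ), ¬ par I0 O I → G h I0 m I O = 0 := by
  intro m
  induction m with
  | zero =>
    intro I O hp
    rw [G_zero]
    split_ifs with h1 h2
    · exfalso
      apply hp
      rw [h2, par_zero]
      exact h1
    all_goals simp
  | succ m ih =>
    intro I O hp
    rw [G_succ]
    apply Finset.sum_eq_zero
    intro S _
    rw [ih _ _ (fun h => hp ((par_up I0 O I S).1 h)), zero_add]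
    by_cases hO : O S = 0
    · rw [hO]; simp
    · rw [ih _ _ (fun h => hp ((par_dn I0 O I S hO).1 h)), mul_zero]

/-- the growth rate -/
noncomputable def Lam (n ℓ h : ℕ) (t B K : ℝ) : ℝ :=
  t * ((ℓ.choose h : ℝ) * ((n + B * (ℓ + 2 * h * K)) ^ h / (h.factorial : ℝ))) +
    t⁻¹ * ((ℓ : ℝ) / h + K / B)

lemma G_le (h : ℕ) (hh : 1 ≤ h) (I0 : Finset (Fin n)) {t B : ℝ} (ht : 0 < t) (hB : 1 ≤ B)
    (K : ℕ) : ∀ (m : ℕ) (I : Finset (Fin n)) (O : Finset (Fin n) → ℕ),
    par I0 O I → I.card = I0.card → (∀ S, O S ≠ 0 → S.card = 2 * h) → tot O + m ≤ K →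
      G h I0 m I O ≤ Lam n I0.card h t B K ^ m * phi I0 h t B O := by
  have hB0 : 0 < B := by linarith
  have hh0 : (0 : ℝ) < h := by exact_mod_cast hh
  have hLam : 0 ≤ Lam n I0.card h t B K := by
    unfold Lam
    positivity
  intro m
  induction m with
  | zero =>
    intro I O hp _ _ _
    rw [G_zero, pow_zero, one_mul]
    have hphi := phi_nonneg I0 h ht hB O
    split_ifs with h1 h2
    · rw [h2]
      unfold phi tot
      have : VV I0 (fun _ => 0) = I0 := by
        ext x
        rw [mem_VV]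
        simp
      rw [this]
      simp only [Finset.sum_const_zero, pow_zero, one_mul, mul_one]
      rw [← mul_pow, mul_inv_cancel₀ hB0.ne', one_pow]
    all_goals simpa using hphi
  | succ m ih =>
    intro I O hp hI hg hK
    rw [G_succ]
    obtain ⟨Λ, hΛ⟩ : ∃ Λ, Λ = Lam n I0.card h t B K := ⟨_, rfl⟩
    rw [← hΛ] at ih hLam ⊢
    have h1 : ∀ S ∈ adj h I, G h I0 m (symmDiff I S) (up O S) +
        (O S : ℝ) * G h I0 m (symmDiff I S) (dn O S) ≤
        Λ ^ m * (phi I0 h t B (up O S) + (O S : ℝ) * phi I0 h t B (dn O S)) := by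
      intro S hS
      obtain ⟨hS1, hS2⟩ := mem_adj.1 hS
      have hup : ∀ T, up O S T ≠ 0 → T.card = 2 * h := by
        intro T hT
        by_cases hTS : T = S
        · rw [hTS, hS1]
        · unfold up at hT
          rw [Function.update_of_ne hTS] at hT
          exact hg T hT
      have hdn : ∀ T, dn O S T ≠ 0 → T.card = 2 * h := by
        intro T hT
        by_cases hTS : T = S
        · rw [hTS, hS1]
        · unfold dn at hT
          rw [Function.update_of_ne hTS] at hT
          exact hg T hT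
      have e1 := ih (symmDiff I S) (up O S) ((par_up I0 O I S).2 hp) (hS2.trans hI) hup
        (by rw [tot_up]; omega)
      have e2 : (O S : ℝ) * G h I0 m (symmDiff I S) (dn O S) ≤
          (O S : ℝ) * (Λ ^ m * phi I0 h t B (dn O S)) := by
        by_cases hO : O S = 0
        · rw [hO]; simp
        · apply mul_le_mul_of_nonneg_left _ (Nat.cast_nonneg _)
          have h3 := tot_dn O S hO
          exact ih (symmDiff I S) (dn O S) ((par_dn I0 O I S hO).2 hp) (hS2.trans hI) hdn
            (by omega)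
      calc _ ≤ Λ ^ m * phi I0 h t B (up O S) + (O S : ℝ) * (Λ ^ m * phi I0 h t B (dn O S)) :=
            add_le_add e1 e2
        _ = _ := by ring
    refine (Finset.sum_le_sum h1).trans ?_
    rw [← Finset.mul_sum, Finset.sum_add_distrib]
    have hv : ((VV I0 O).card : ℝ) ≤ (I0.card : ℝ) + 2 * h * K := by
      have h3 := card_VV_le I0 h O hg
      have h4 : tot O ≤ K := by omega
      have h5 : I0.card + 2 * h * tot O ≤ I0.card + 2 * h * K :=
        Nat.add_le_add_left (Nat.mul_le_mul_left _ h4) _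
      exact_mod_cast h3.trans h5
    have h2 := opens I0 I h ht hB O hp hI hv
    have hK' : (tot O : ℝ) ≤ K := by
      have : tot O ≤ K := by omega
      exact_mod_cast this
    have h3 := closes I0 I h hh ht hB O hp hI hK'
    have h4 : ∑ S ∈ adj h I, phi I0 h t B (up O S) +
        ∑ S ∈ adj h I, (O S : ℝ) * phi I0 h t B (dn O S) ≤ phi I0 h t B O * Λ := by
      refine (add_le_add h2 h3).trans (le_of_eq ?_)
      rw [hΛ, Lam]
      ring
    calc _ ≤ Λ ^ m * (phi I0 h t B O * Λ) := mul_le_mul_of_nonneg_left h4 (by positivity)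
      _ = _ := by ring

/-- the mean of the weighted number of closed walks -/
theorem walk_le (h : ℕ) (hh : 1 ≤ h) (I0 : Finset (Fin n)) {t B : ℝ} (ht : 0 < t) (hB : 1 ≤ B)
    (K : ℕ) : ∫ Z, W h I0 K I0 Z ∂(gam (Finset (Fin n))) ≤ Lam n I0.card h t B K ^ K := by
  have h1 := G_le h hh I0 ht hB K K I0 (fun _ => 0) ((par_zero I0 I0).2 rfl) rfl
    (fun S hS => absurd rfl hS) (by unfold tot; simp)
  have h2 : phi I0 h t B (fun _ => 0) = 1 := by
    have hB0 : 0 < B := by linarith
    unfold phi tot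
    have : VV I0 (fun _ => 0) = I0 := by
      ext x
      rw [mem_VV]
      simp
    rw [this]
    simp only [Finset.sum_const_zero, pow_zero, one_mul]
    rw [← mul_pow, mul_inv_cancel₀ hB0.ne', one_pow]
  rw [h2, mul_one] at h1
  unfold G at h1
  simp only [hm_zero, mul_one] at h1
  exact h1

lemma walk_int (h : ℕ) (I0 : Finset (Fin n)) (m : ℕ) (I : Finset (Fin n)) :
    Integrable (fun Z => W h I0 m I Z) (gam (Finset (Fin n))) := by
  have := W_int h I0 m I (fun _ => 0)
  simpa only [hm_zero, mul_one] using this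

end Pool.Agent.Run7.h59.KK
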